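import Pool.Agent.H19AB.Fibre

/-!
# The bound for the exceptional set at one scale
-/

namespace H19AB

open Finset
open scoped BigOperators

/-- Smooth numbers up to `N`. -/
theorem card_smooth (N k : ℕ) (hk : 1 ≤ k) (hN : 4 ^ (8 * k ^ 3) ≤ N) (S : Finset ℕ)
    (hS : ∀ n ∈ S, n ∈ Ioc 0 N ∧ ∀ p, p.Prime → p ∣ n → p ≤ 2 ^ (4 * k ^ 2)) :
    (S.card : ℝ) ≤ N * (1 / 2 ^ k +
      (2 / 3) ^ (2 * k) * (Real.exp 30 * ((4 * k ^ 2 : ℕ) : ℝ) ^ 24)) := by
  set s : ℕ := 4 ^ (4 * k ^ 3) with hs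
  have hs0 : (0 : ℝ) < s := by rw [hs]; positivity
  have hss : (s : ℝ) * s ≤ N := by
    have : s * s ≤ N := by
      rw [hs, ← pow_add]
      have : 4 * k ^ 3 + 4 * k ^ 3 = 8 * k ^ 3 := by ring
      rw [this]
      exact hN
    exact_mod_cast this
  have h1 : ((S.filter (· ≤ s)).card : ℝ) ≤ N * (1 / 2 ^ k) := by
    have h2 : S.filter (· ≤ s) ⊆ Ioc 0 s := by
      intro n hn
      obtain ⟨h3, h4⟩ := Finset.mem_filter.1 hn
      exact Finset.mem_Ioc.2 ⟨(Finset.mem_Ioc.1 (hS n h3).1).1, h4⟩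
    have h3 : ((S.filter (· ≤ s)).card : ℝ) ≤ s := by
      have := Finset.card_le_card h2
      rw [Nat.card_Ioc, Nat.sub_zero] at this
      exact_mod_cast this
    have h4 : (2 : ℝ) ^ k ≤ s := by
      have : 2 ^ k ≤ s := by
        rw [hs]
        calc 2 ^ k ≤ 4 ^ k := Nat.pow_le_pow_left (by norm_num) k
          _ ≤ 4 ^ (4 * k ^ 3) := Nat.pow_le_pow_right (by norm_num) (by
            have : k ≤ k ^ 3 := Nat.le_self_pow (by norm_num) k
            omega)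
      exact_mod_cast this
    refine h3.trans ?_
    rw [mul_one_div, le_div_iff₀ (by positivity)]
    calc (s : ℝ) * 2 ^ k ≤ s * s := mul_le_mul_of_nonneg_left h4 hs0.le
      _ ≤ N := hss
  have h2 : ((S.filter (fun n => ¬ n ≤ s)).card : ℝ) ≤
      N * ((2 / 3) ^ (2 * k) * (Real.exp 30 * ((4 * k ^ 2 : ℕ) : ℝ) ^ 24)) := by
    have h3 : ∑ n ∈ S.filter (fun n => ¬ n ≤ s), (1 : ℝ) / n ≤
        (2 / 3) ^ (2 * k) * (Real.exp 30 * ((4 * k ^ 2 : ℕ) : ℝ) ^ 24) := by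
      refine tail (2 ^ (4 * k ^ 2)) (4 * k ^ 2) (2 * k) (by nlinarith) le_rfl _ ?_
      intro n hn
      obtain ⟨h4, h5⟩ := Finset.mem_filter.1 hn
      obtain ⟨h6, h7⟩ := hS n h4
      have hn0 : n ≠ 0 := by
        have := (Finset.mem_Ioc.1 h6).1
        omega
      refine ⟨hn0, h7, ?_⟩
      have h8 := le_pow_Om hn0 h7
      have h9 : (2 ^ (4 * k ^ 2)) ^ (2 * k) < (2 ^ (4 * k ^ 2)) ^ Om n := by
        refine lt_of_lt_of_le ?_ h8
        have : (2 ^ (4 * k ^ 2)) ^ (2 * k) = s := by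
          rw [hs, ← pow_mul, show (4 : ℕ) = 2 ^ 2 by norm_num, ← pow_mul]
          congr 1
          ring
        rw [this]
        omega
      have h10 : 1 < 2 ^ (4 * k ^ 2) := Nat.one_lt_two_pow (by positivity)
      exact ((Nat.pow_lt_pow_iff_right h10).1 h9).le
    calc ((S.filter (fun n => ¬ n ≤ s)).card : ℝ)
        = ∑ n ∈ S.filter (fun n => ¬ n ≤ s), (1 : ℝ) := by
          rw [Finset.sum_const, nsmul_eq_mul, mul_one]
      _ ≤ ∑ n ∈ S.filter (fun n => ¬ n ≤ s), N * ((1 : ℝ) / n) := by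
          refine Finset.sum_le_sum fun n hn => ?_
          have h6 := Finset.mem_Ioc.1 (hS n (Finset.mem_filter.1 hn).1).1
          have hn0 : (0 : ℝ) < n := by exact_mod_cast h6.1
          rw [mul_one_div, le_div_iff₀ hn0, one_mul]
          exact_mod_cast h6.2
      _ = N * ∑ n ∈ S.filter (fun n => ¬ n ≤ s), (1 : ℝ) / n := by rw [Finset.mul_sum]
      _ ≤ _ := mul_le_mul_of_nonneg_left h3 (by positivity)
  have h3 := Finset.card_filter_add_card_filter_not (s := S) (fun n => n ≤ s)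
  have h4 : (S.card : ℝ) = ((S.filter (· ≤ s)).card : ℝ) +
      ((S.filter (fun n => ¬ n ≤ s)).card : ℝ) := by
    exact_mod_cast h3.symm
  rw [h4, mul_add]
  exact add_le_add h1 h2

/-- The main part of the exceptional set. -/
theorem card_main (N k : ℕ) (hk : 1 ≤ k) (hlog : Nat.log 2 N ≤ 4 ^ k) (S : Finset ℕ)
    (hS : ∀ n ∈ S, n ∈ Ioc 0 N ∧ 2 ≤ n.primeFactors.card ∧ (∃ j : ℤ, a n = j) ∧
      (∃ p, p.Prime ∧ p ∣ n ∧ 2 ^ (4 * k ^ 2) < p) ∧
      (∀ P : ℕ, P.Prime → 2 ^ (4 * k ^ 2) < P → ¬ P ^ 2 ∣ n) ∧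
      n.primeFactors.card ≤ k ∧
      (∀ ℓ p : ℕ, ℓ.Prime → p.Prime → 2 ^ (2 * k) < ℓ → ℓ ∣ p - 1 → ¬ ℓ * p ∣ n)) :
    (S.card : ℝ) ≤ N * HH N * (2 * Nat.log 2 N / 2 ^ k +
      2 * ((2 / 3) ^ (2 * k) * (Real.exp 30 * ((2 * k : ℕ) : ℝ) ^ 24))) := by
  classical
  set y : ℕ := 2 ^ (2 * k) with hy
  set z : ℕ := 2 ^ (4 * k ^ 2) with hz
  have hzy : z = y ^ (2 * k) := by
    rw [hz, hy, ← pow_mul]
    congr 1
    ring
  have hy0 : 0 < y := by rw [hy]; positivity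
  have hz0 : 0 < z := by rw [hz]; positivity
  have hyz : y ≤ z := by
    rw [hz, hy]
    exact Nat.pow_le_pow_right (by norm_num) (by nlinarith)
  have hy4 : y = 4 ^ k := by
    rw [hy, pow_mul]
    norm_num
  set M := (Ioc 0 N).filter (fun m => 2 ≤ m ∧ z ≤ N / m ∧ m.primeFactors.card ≤ k) with hM
  let T1 : ℕ → Finset ℕ := fun m => (range (N / m + 1)).filter (fun P => ∃ ℓ : ℕ, ℓ.Prime ∧
      y < ℓ ∧ ℓ ∣ P * (rad m - Nat.totient (rad m)) + Nat.totient (rad m) ∧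
      ¬ ℓ ∣ rad m - Nat.totient (rad m) ∧ ∃ e, e ∣ rad m ∧ e ≠ 1 ∧ ℓ ∣ e - Nat.totient e)
  let T2 : ℕ → Finset ℕ := fun m => (range (N / m + 1)).filter (fun P => z < P ∧
      ∀ ℓ : ℕ, ℓ.Prime →
      ℓ ∣ P * (rad m - Nat.totient (rad m)) + Nat.totient (rad m) → ℓ ≤ y)
  have hsub : S ⊆ (M.sigma (fun m => T1 m ∪ T2 m)).image (fun q => q.2 * q.1) := by
    intro n hn
    obtain ⟨h1, h2, h3, ⟨p, hp, hpn, hzp⟩, h5, h6, h7⟩ := hS n hn
    have hn' := Finset.mem_Ioc.1 h1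
    have hn0 : n ≠ 0 := by omega
    have hne : n.primeFactors.Nonempty := ⟨p, Nat.mem_primeFactors.2 ⟨hp, hpn, hn0⟩⟩
    set P := n.primeFactors.max' hne with hP
    have hPmem := Finset.max'_mem _ hne
    rw [← hP] at hPmem
    have hPp := Nat.prime_of_mem_primeFactors hPmem
    have hPn := Nat.dvd_of_mem_primeFactors hPmem
    have hzP : z < P := lt_of_lt_of_le hzp
      (Finset.le_max' _ _ (Nat.mem_primeFactors.2 ⟨hp, hpn, hn0⟩))
    obtain ⟨m, hm⟩ := hPn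
    have hm0 : m ≠ 0 := by
      rintro rfl
      rw [mul_zero] at hm
      exact hn0 hm
    have hPm : ¬ P ∣ m := by
      rintro ⟨t, ht⟩
      apply h5 P hPp hzP
      exact ⟨t, by rw [hm, ht]; ring⟩
    have hpf : n.primeFactors = insert P m.primeFactors := by
      rw [hm, Nat.primeFactors_mul hPp.ne_zero hm0, hPp.primeFactors]
      rfl
    have hlt : ∀ p ∈ m.primeFactors, p < P := by
      intro q hq
      have h8 : q ≤ P := by
        rw [hP]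
        refine Finset.le_max' _ _ ?_
        rw [hpf]
        exact Finset.mem_insert_of_mem hq
      have h9 : q ≠ P := by
        rintro rfl
        exact hPm (Nat.dvd_of_mem_primeFactors hq)
      omega
    have hm2 : 2 ≤ m := by
      by_contra hcon
      have : m = 1 := by omega
      rw [this] at hpf
      rw [hpf] at h2
      simp at h2
    have hmk : m.primeFactors.card ≤ k := by
      refine le_trans (Finset.card_le_card ?_) h6
      rw [hpf]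
      exact Finset.subset_insert _ _
    have hPX : P ≤ N / m := by
      rw [Nat.le_div_iff_mul_le (by omega), ← hm]
      exact hn'.2
    have hmN : m ≤ N := by
      have : m ≤ P * m := Nat.le_mul_of_pos_left m hPp.pos
      omega
    have hΩ : Om n ≤ y := by
      have h8 := Om_le_log n hn0
      have h9 : Om n ≤ Nat.log 2 N := by
        refine Nat.le_log_of_pow_le (by norm_num) (h8.trans hn'.2)
      omega
    have hsh := shared hPp hm2 hlt hm hΩ h7 h3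
    have hmpos : 0 < m := by omega
    have hzNm : z ≤ N / m := hzP.le.trans hPX
    refine Finset.mem_image.2 ⟨⟨m, P⟩, Finset.mem_sigma.2 ⟨Finset.mem_filter.2
      ⟨Finset.mem_Ioc.2 ⟨hmpos, hmN⟩, hm2, hzNm, hmk⟩, ?_⟩, hm.symm⟩
    by_cases hc : ∃ ℓ : ℕ, ℓ.Prime ∧ y < ℓ ∧
        ℓ ∣ P * (rad m - Nat.totient (rad m)) + Nat.totient (rad m)
    · obtain ⟨ℓ, hℓ, hyℓ, hd⟩ := hc
      obtain ⟨e1, e2⟩ := hsh ℓ hℓ hyℓ hd
      refine Finset.mem_union_left _ (Finset.mem_filter.2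
        ⟨Finset.mem_range.2 (Nat.lt_succ_of_le hPX), ℓ, hℓ, hyℓ, hd, e1, e2⟩)
    · refine Finset.mem_union_right _ (Finset.mem_filter.2
        ⟨Finset.mem_range.2 (Nat.lt_succ_of_le hPX), hzP, fun ℓ hℓ hd => ?_⟩)
      by_contra hcon
      exact hc ⟨ℓ, hℓ, by omega, hd⟩
  have h1 : (S.card : ℝ) ≤ ∑ m ∈ M, (((T1 m).card : ℝ) + ((T2 m).card : ℝ)) := by
    have h2 : S.card ≤ ∑ m ∈ M, (T1 m ∪ T2 m).card := by
      refine (Finset.card_le_card hsub).trans (Finset.card_image_le.trans ?_)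
      rw [Finset.card_sigma]
    have h3 : ∑ m ∈ M, (T1 m ∪ T2 m).card ≤ ∑ m ∈ M, ((T1 m).card + (T2 m).card) :=
      Finset.sum_le_sum fun m _ => Finset.card_union_le _ _
    exact_mod_cast h2.trans h3
  set B : ℝ := 2 * Nat.log 2 N / 2 ^ k +
      2 * ((2 / 3) ^ (2 * k) * (Real.exp 30 * ((2 * k : ℕ) : ℝ) ^ 24)) with hB
  have hB0 : 0 ≤ B := by rw [hB]; positivity
  have h2 : ∀ m ∈ M, (((T1 m).card : ℝ) + ((T2 m).card : ℝ)) ≤ (N * B) * (1 / m) := by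
    intro m hm
    obtain ⟨h3, h4, h5, h6⟩ := Finset.mem_filter.1 hm
    have h3' := Finset.mem_Ioc.1 h3
    have hm0 : (0 : ℝ) < m := by exact_mod_cast h3'.1
    have hX : ((N / m : ℕ) : ℝ) ≤ N / m := Nat.cast_div_le
    have e1 : ((T1 m).card : ℝ) ≤ ((2 ^ k * Nat.log 2 N : ℕ) : ℝ) * (2 * (N / m : ℕ) / y) := by
      refine fibre_one m y (N / m) (2 ^ k * Nat.log 2 N) hy0 (hyz.trans h5) ?_ (T1 m) ?_
      · exact (card_Lset m y N (by omega) h3'.2).trans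
          (Nat.mul_le_mul_right _ (Nat.pow_le_pow_right (by norm_num) h6))
      · intro P hP
        obtain ⟨h7, h8⟩ := Finset.mem_filter.1 hP
        exact ⟨by have := Finset.mem_range.1 h7; omega, h8⟩
    have e2 : ((T2 m).card : ℝ) ≤ 2 * (N / m : ℕ) *
        ((2 / 3) ^ (2 * k) * (Real.exp 30 * ((2 * k : ℕ) : ℝ) ^ 24)) := by
      refine fibre_two m y z (N / m) k h4 hk hy hzy h5 (T2 m) ?_
      intro P hP
      obtain ⟨h7, h8, h9⟩ := Finset.mem_filter.1 hP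
      exact ⟨by have := Finset.mem_range.1 h7; omega, h8, h9⟩
    have e3 : ((2 ^ k * Nat.log 2 N : ℕ) : ℝ) * (2 * (N / m : ℕ) / y) =
        (N / m : ℕ) * (2 * Nat.log 2 N / 2 ^ k) := by
      rw [hy4]
      push_cast
      have : (4 : ℝ) ^ k = 2 ^ k * 2 ^ k := by
        rw [← mul_pow]
        norm_num
      rw [this]
      field_simp
    rw [e3] at e1
    have e4 : ((T1 m).card : ℝ) + ((T2 m).card : ℝ) ≤ (N / m : ℕ) * B := by
      rw [hB, mul_add]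
      refine add_le_add e1 (e2.trans (le_of_eq ?_))
      ring
    refine e4.trans ((mul_le_mul_of_nonneg_right hX hB0).trans (le_of_eq ?_))
    ring
  calc (S.card : ℝ) ≤ ∑ m ∈ M, (((T1 m).card : ℝ) + ((T2 m).card : ℝ)) := h1
    _ ≤ ∑ m ∈ M, (N * B) * (1 / m) := Finset.sum_le_sum h2
    _ = (N * B) * ∑ m ∈ M, (1 : ℝ) / m := by rw [Finset.mul_sum]
    _ ≤ (N * B) * HH N := by
        refine mul_le_mul_of_nonneg_left ?_ (by positivity)
        exact Finset.sum_le_sum_of_subset_of_nonneg (Finset.filter_subset _ _)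
          (fun _ _ _ => by positivity)
    _ = N * HH N * B := by ring

/-- The bound for the exceptional set. -/
theorem card_bad (N k : ℕ) (hk : 1 ≤ k) (hN : 4 ^ (8 * k ^ 3) ≤ N) (hlog : Nat.log 2 N ≤ 4 ^ k)
    (S : Finset ℕ)
    (hS : ∀ n ∈ S, n ∈ Ioc 0 N ∧ 2 ≤ n.primeFactors.card ∧ (∃ j : ℤ, a n = j)) :
    (S.card : ℝ) ≤ N * ((1 / 2 ^ k +
      (2 / 3) ^ (2 * k) * (Real.exp 30 * ((4 * k ^ 2 : ℕ) : ℝ) ^ 24)) +
      1 / 2 ^ k + HH N / 2 ^ k + HH N / 2 ^ k +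
      HH N * (2 * Nat.log 2 N / 2 ^ k +
      2 * ((2 / 3) ^ (2 * k) * (Real.exp 30 * ((2 * k : ℕ) : ℝ) ^ 24)))) := by
  classical
  set z : ℕ := 2 ^ (4 * k ^ 2) with hz
  set y : ℕ := 2 ^ (2 * k) with hy
  have hy0 : 0 < y := by rw [hy]; positivity
  have hz0 : 0 < z := by rw [hz]; positivity
  let S1 := S.filter (fun n => ∀ p, p.Prime → p ∣ n → p ≤ z)
  let S2 := S.filter (fun n => ∃ P : ℕ, P.Prime ∧ z < P ∧ P ^ 2 ∣ n)
  let S3 := S.filter (fun n => k < n.primeFactors.card)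
  let S4 := S.filter (fun n => ∃ ℓ p : ℕ, ℓ.Prime ∧ p.Prime ∧ y < ℓ ∧ ℓ ∣ p - 1 ∧ ℓ * p ∣ n)
  let S5 := S.filter (fun n => ¬ (∀ p, p.Prime → p ∣ n → p ≤ z) ∧
    ¬ (∃ P : ℕ, P.Prime ∧ z < P ∧ P ^ 2 ∣ n) ∧ ¬ (k < n.primeFactors.card) ∧
    ¬ (∃ ℓ p : ℕ, ℓ.Prime ∧ p.Prime ∧ y < ℓ ∧ ℓ ∣ p - 1 ∧ ℓ * p ∣ n))
  have hcov : S ⊆ S1 ∪ S2 ∪ S3 ∪ S4 ∪ S5 := by
    intro n hn
    by_cases h1 : ∀ p, p.Prime → p ∣ n → p ≤ z
    · simp only [Finset.mem_union]
      exact Or.inl (Or.inl (Or.inl (Or.inl (Finset.mem_filter.2 ⟨hn, h1⟩))))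
    by_cases h2 : ∃ P : ℕ, P.Prime ∧ z < P ∧ P ^ 2 ∣ n
    · simp only [Finset.mem_union]
      exact Or.inl (Or.inl (Or.inl (Or.inr (Finset.mem_filter.2 ⟨hn, h2⟩))))
    by_cases h3 : k < n.primeFactors.card
    · simp only [Finset.mem_union]
      exact Or.inl (Or.inl (Or.inr (Finset.mem_filter.2 ⟨hn, h3⟩)))
    by_cases h4 : ∃ ℓ p : ℕ, ℓ.Prime ∧ p.Prime ∧ y < ℓ ∧ ℓ ∣ p - 1 ∧ ℓ * p ∣ n
    · simp only [Finset.mem_union]
      exact Or.inl (Or.inr (Finset.mem_filter.2 ⟨hn, h4⟩))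
    · exact Finset.mem_union_right _ (Finset.mem_filter.2 ⟨hn, h1, h2, h3, h4⟩)
  have c1 := card_smooth N k hk hN S1 (fun n hn => by
    obtain ⟨h1, h2⟩ := Finset.mem_filter.1 hn
    exact ⟨(hS n h1).1, h2⟩)
  have c2 := card_sq N z hz0 S2 (fun n hn => by
    obtain ⟨h1, h2⟩ := Finset.mem_filter.1 hn
    exact ⟨(hS n h1).1, h2⟩)
  have c3 : (S3.card : ℝ) ≤ N * HH N / 2 ^ k := by
    refine le_trans ?_ (card_omega N k)
    have : S3 ⊆ (Ioc 0 N).filter (fun n => k < n.primeFactors.card) := by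
      intro n hn
      obtain ⟨h1, h2⟩ := Finset.mem_filter.1 hn
      exact Finset.mem_filter.2 ⟨(hS n h1).1, h2⟩
    exact_mod_cast Finset.card_le_card this
  have c4 := card_cong N y hy0 S4 (fun n hn => by
    obtain ⟨h1, h2⟩ := Finset.mem_filter.1 hn
    exact ⟨(hS n h1).1, h2⟩)
  have c5 := card_main N k hk hlog S5 (fun n hn => by
    obtain ⟨h1, h2, h3, h4, h5⟩ := Finset.mem_filter.1 hn
    obtain ⟨e1, e2, e3⟩ := hS n h1
    refine ⟨e1, e2, e3, ?_, ?_, by omega, ?_⟩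
    · push Not at h2
      exact h2
    · intro P hP hzP hd
      exact h3 ⟨P, hP, hzP, hd⟩
    · intro ℓ p hℓ hp hyℓ hd hn
      exact h5 ⟨ℓ, p, hℓ, hp, hyℓ, hd, hn⟩)
  have hN0 : (0 : ℝ) ≤ N := by positivity
  have hHH := HH_nonneg N
  have h2k : (0 : ℝ) < 2 ^ k := by positivity
  have d2 : (N : ℝ) / z ≤ N * (1 / 2 ^ k) := by
    rw [mul_one_div]
    refine div_le_div_of_nonneg_left hN0 h2k ?_
    have : 2 ^ k ≤ z := by
      rw [hz]
      exact Nat.pow_le_pow_right (by norm_num) (by nlinarith)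
    exact_mod_cast this
  have d4 : (N : ℝ) * HH N / y ≤ N * (HH N / 2 ^ k) := by
    rw [mul_div_assoc]
    refine mul_le_mul_of_nonneg_left (div_le_div_of_nonneg_left hHH h2k ?_) hN0
    have : 2 ^ k ≤ y := by
      rw [hy]
      exact Nat.pow_le_pow_right (by norm_num) (by omega)
    exact_mod_cast this
  have hcard : (S.card : ℝ) ≤ S1.card + S2.card + S3.card + S4.card + S5.card := by
    have h1 := Finset.card_le_card hcov
    have h2 : (S1 ∪ S2 ∪ S3 ∪ S4 ∪ S5).card ≤ S1.card + S2.card + S3.card + S4.card + S5.card := by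
      refine (Finset.card_union_le _ _).trans (Nat.add_le_add_right ?_ _)
      refine (Finset.card_union_le _ _).trans (Nat.add_le_add_right ?_ _)
      refine (Finset.card_union_le _ _).trans (Nat.add_le_add_right ?_ _)
      exact Finset.card_union_le _ _
    exact_mod_cast h1.trans h2
  have e3 : (N : ℝ) * HH N / 2 ^ k = N * (HH N / 2 ^ k) := by ring
  have e5 : (N : ℝ) * HH N * (2 * Nat.log 2 N / 2 ^ k +
      2 * ((2 / 3) ^ (2 * k) * (Real.exp 30 * ((2 * k : ℕ) : ℝ) ^ 24))) =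
      N * (HH N * (2 * Nat.log 2 N / 2 ^ k +
      2 * ((2 / 3) ^ (2 * k) * (Real.exp 30 * ((2 * k : ℕ) : ℝ) ^ 24)))) := by ring
  rw [e3] at c3
  rw [e5] at c5
  have := d2.trans' c2
  have := d4.trans' c4
  simp only [mul_add] at c1 c5 ⊢
  linarith

end H19AB
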