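import Pool.Agent.H19AB.Mult

/-!
# Elementary counting
-/

namespace H19AB

open Finset
open scoped BigOperators

/-- Solutions of a linear congruence in an initial segment. -/
theorem card_lin {g D c X : ℕ} (hg : 0 < g) (h : Nat.Coprime g D) :
    ((range (X + 1)).filter (fun P => g ∣ P * D + c)).card ≤ X / g + 1 := by
  have h1 : ((range (X + 1)).filter (fun P => g ∣ P * D + c)).card ≤
      (range (X / g + 1)).card := by
    apply Finset.card_le_card_of_injOn (fun P => P / g)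
    · intro P hP
      have hP' := Finset.mem_filter.1 (Finset.mem_coe.1 hP)
      have := Finset.mem_range.1 hP'.1
      apply Finset.mem_coe.2
      apply Finset.mem_range.2
      have := Nat.div_le_div_right (c := g) (show P ≤ X by omega)
      show P / g < X / g + 1
      omega
    · intro P hP Q hQ hPQ
      have hP' := (Finset.mem_filter.1 (Finset.mem_coe.1 hP)).2
      have hQ' := (Finset.mem_filter.1 (Finset.mem_coe.1 hQ)).2
      simp only at hPQ
      have key : ∀ P Q : ℕ, P ≤ Q → g ∣ P * D + c → g ∣ Q * D + c → P / g = Q / g → P = Q := by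
        intro P Q hle h1 h2 h3
        have h4 : g ∣ (Q - P) * D := by
          have := Nat.dvd_sub h2 h1
          have e : Q * D + c - (P * D + c) = (Q - P) * D := by
            rw [Nat.sub_mul]
            omega
          rwa [e] at this
        have h5 : g ∣ Q - P := h.dvd_of_dvd_mul_right h4
        have h6 : Q - P < g := by
          have e1 := Nat.div_add_mod P g
          have e2 := Nat.div_add_mod Q g
          have e3 := Nat.mod_lt Q hg
          rw [h3] at e1
          omega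
        have h7 : Q - P = 0 := Nat.eq_zero_of_dvd_of_lt h5 h6
        omega
      rcases Nat.le_total P Q with hle | hle
      · exact key P Q hle hP' hQ' hPQ
      · exact (key Q P hle hQ' hP' hPQ.symm).symm
  rwa [Finset.card_range] at h1

/-- The harmonic sum. -/
noncomputable def HH (N : ℕ) : ℝ := ∑ i ∈ Ioc 0 N, (1 : ℝ) / i

theorem HH_le (N : ℕ) : HH N ≤ 1 + Real.log N := by
  have h := harmonic_le_one_add_log N
  have h1 : HH N = ((harmonic N : ℚ) : ℝ) := by
    rw [harmonic_eq_sum_Icc]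
    unfold HH
    push_cast
    have : Ioc 0 N = Icc 1 N := rfl
    rw [this]
    refine Finset.sum_congr rfl fun i _ => ?_
    rw [one_div]
  rw [h1]
  exact h

theorem HH_nonneg (N : ℕ) : 0 ≤ HH N := Finset.sum_nonneg fun i _ => by positivity

theorem card_mult (N d : ℕ) :
    (((Ioc 0 N).filter (fun n => d ∣ n)).card : ℝ) ≤ (N : ℝ) / d := by
  rw [Nat.Ioc_filter_dvd_card_eq_div]
  exact Nat.cast_div_le

/-- Numbers divisible by the square of a large prime. -/
theorem card_sq (N z : ℕ) (hz : 0 < z) (S : Finset ℕ)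
    (hS : ∀ n ∈ S, n ∈ Ioc 0 N ∧ ∃ P : ℕ, P.Prime ∧ z < P ∧ P ^ 2 ∣ n) :
    (S.card : ℝ) ≤ (N : ℝ) / z := by
  have h1 : S ⊆
      (Ioc z N).biUnion (fun P => (Ioc 0 N).filter (fun n => P ^ 2 ∣ n)) := by
    intro n hn
    obtain ⟨h2, P, hP, hzP, hd⟩ := hS n hn
    have h3 := Finset.mem_Ioc.1 h2
    have h4 := Nat.le_of_dvd h3.1 hd
    refine Finset.mem_biUnion.2 ⟨P, Finset.mem_Ioc.2 ⟨hzP, ?_⟩, Finset.mem_filter.2 ⟨h2, hd⟩⟩
    nlinarith [hP.one_lt]
  rcases Nat.lt_or_ge N z with hNz | hNz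
  · have : (Ioc z N) = ∅ := Finset.Ioc_eq_empty (by omega)
    rw [this, Finset.biUnion_empty] at h1
    rw [Finset.subset_empty.1 h1]
    simp
    positivity
  calc (S.card : ℝ)
      ≤ (((Ioc z N).biUnion (fun P => (Ioc 0 N).filter (fun n => P ^ 2 ∣ n))).card : ℝ) := by
        exact_mod_cast Finset.card_le_card h1
    _ ≤ ∑ P ∈ Ioc z N, (((Ioc 0 N).filter (fun n => P ^ 2 ∣ n)).card : ℝ) := by
        exact_mod_cast Finset.card_biUnion_le
    _ ≤ ∑ P ∈ Ioc z N, (N : ℝ) * (((P : ℝ) ^ 2)⁻¹) := by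
        refine Finset.sum_le_sum fun P _ => ?_
        have := card_mult N (P ^ 2)
        push_cast at this
        rwa [div_eq_mul_inv] at this
    _ = (N : ℝ) * ∑ P ∈ Ioc z N, (((P : ℝ) ^ 2)⁻¹) := by rw [Finset.mul_sum]
    _ ≤ (N : ℝ) * ((z : ℝ)⁻¹ - (N : ℝ)⁻¹) := by
        exact mul_le_mul_of_nonneg_left (sum_Ioc_inv_sq_le_sub hz.ne' hNz) (by positivity)
    _ ≤ (N : ℝ) / z := by
        rw [div_eq_mul_inv]
        have : (0 : ℝ) ≤ (N : ℝ)⁻¹ := by positivity
        exact mul_le_mul_of_nonneg_left (by linarith) (by positivity)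

theorem two_pow_le_divisors {n : ℕ} (hn : n ≠ 0) :
    2 ^ n.primeFactors.card ≤ n.divisors.card := by
  rw [← Finset.card_powerset]
  apply Finset.card_le_card_of_injOn (fun s => ∏ p ∈ s, p)
  · intro s hs
    have hs' := Finset.mem_powerset.1 (Finset.mem_coe.1 hs)
    apply Finset.mem_coe.2
    exact Nat.mem_divisors.2
      ⟨(Finset.prod_dvd_prod_of_subset _ _ _ hs').trans (Nat.prod_primeFactors_dvd n), hn⟩
  · intro s hs t ht hst
    have hs' := Finset.mem_powerset.1 (Finset.mem_coe.1 hs)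
    have ht' := Finset.mem_powerset.1 (Finset.mem_coe.1 ht)
    have h1 : (∏ p ∈ s, p).primeFactors = s :=
      Nat.primeFactors_prod fun p hp => Nat.prime_of_mem_primeFactors (hs' hp)
    have h2 : (∏ p ∈ t, p).primeFactors = t :=
      Nat.primeFactors_prod fun p hp => Nat.prime_of_mem_primeFactors (ht' hp)
    simp only at hst
    rw [← h1, hst, h2]

/-- The divisor sum. -/
theorem sum_divisors_card (N : ℕ) :
    ∑ n ∈ Ioc 0 N, (n.divisors.card : ℝ) ≤ N * HH N := by
  have h1 : ∀ n ∈ Ioc 0 N, (n.divisors.card : ℝ) = ∑ d ∈ Ioc 0 N, if d ∣ n then (1 : ℝ) else 0 := by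
    intro n hn
    have hn' := Finset.mem_Ioc.1 hn
    rw [← Finset.sum_filter, Finset.sum_const, nsmul_eq_mul, mul_one]
    congr 2
    ext d
    simp only [Nat.mem_divisors, Finset.mem_filter, Finset.mem_Ioc]
    constructor
    · rintro ⟨h2, h3⟩
      exact ⟨⟨Nat.pos_of_dvd_of_pos h2 hn'.1, (Nat.le_of_dvd hn'.1 h2).trans hn'.2⟩, h2⟩
    · rintro ⟨_, h3⟩
      exact ⟨h3, by omega⟩
  rw [Finset.sum_congr rfl h1, Finset.sum_comm]
  unfold HH
  rw [Finset.mul_sum]
  refine Finset.sum_le_sum fun d _ => ?_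
  rw [← Finset.sum_filter, Finset.sum_const, nsmul_eq_mul, mul_one, mul_one_div]
  exact card_mult N d

/-- Numbers with many prime factors. -/
theorem card_omega (N k : ℕ) :
    (((Ioc 0 N).filter (fun n => k < n.primeFactors.card)).card : ℝ) ≤ N * HH N / 2 ^ k := by
  rw [le_div_iff₀ (by positivity)]
  calc (((Ioc 0 N).filter (fun n => k < n.primeFactors.card)).card : ℝ) * 2 ^ k
      = ∑ n ∈ (Ioc 0 N).filter (fun n => k < n.primeFactors.card), (2 : ℝ) ^ k := by
        rw [Finset.sum_const, nsmul_eq_mul]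
    _ ≤ ∑ n ∈ (Ioc 0 N).filter (fun n => k < n.primeFactors.card), (n.divisors.card : ℝ) := by
        refine Finset.sum_le_sum fun n hn => ?_
        obtain ⟨h1, h2⟩ := Finset.mem_filter.1 hn
        have h3 := Finset.mem_Ioc.1 h1
        have h4 := two_pow_le_divisors (n := n) (by omega)
        have h5 : 2 ^ k ≤ 2 ^ n.primeFactors.card := Nat.pow_le_pow_right (by norm_num) h2.le
        exact_mod_cast h5.trans h4
    _ ≤ ∑ n ∈ Ioc 0 N, (n.divisors.card : ℝ) :=
        Finset.sum_le_sum_of_subset_of_nonneg (Finset.filter_subset _ _)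
          (fun _ _ _ => by positivity)
    _ ≤ N * HH N := sum_divisors_card N

/-- Numbers divisible by `ℓ p` with `p ≡ 1` modulo `ℓ > y`. -/
theorem card_cong (N y : ℕ) (hy : 0 < y) (S : Finset ℕ)
    (hS : ∀ n ∈ S, n ∈ Ioc 0 N ∧ ∃ ℓ p : ℕ, ℓ.Prime ∧ p.Prime ∧ y < ℓ ∧ ℓ ∣ p - 1 ∧
      ℓ * p ∣ n) : (S.card : ℝ) ≤ N * HH N / y := by
  have h1 : S ⊆ (Ioc y N).biUnion (fun ℓ => (Ioc 0 N).biUnion (fun j =>
        (Ioc 0 N).filter (fun n => ℓ * (1 + j * ℓ) ∣ n))) := by
    intro n hn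
    obtain ⟨h2, ℓ, p, hℓ, hp, hyℓ, h3, h4⟩ := hS n hn
    have h5 := Finset.mem_Ioc.1 h2
    have h6 := Nat.le_of_dvd h5.1 h4
    obtain ⟨j, hj⟩ := h3
    have hp1 := hp.two_le
    have hℓ1 := hℓ.two_le
    have hj0 : 0 < j := by
      rcases Nat.eq_zero_or_pos j with h | h
      · rw [h, mul_zero] at hj
        omega
      · exact h
    have hpj : p = 1 + j * ℓ := by
      rw [mul_comm j ℓ, ← hj]
      omega
    refine Finset.mem_biUnion.2 ⟨ℓ, Finset.mem_Ioc.2 ⟨hyℓ, ?_⟩,
      Finset.mem_biUnion.2 ⟨j, Finset.mem_Ioc.2 ⟨hj0, ?_⟩, Finset.mem_filter.2 ⟨h2, ?_⟩⟩⟩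
    · nlinarith
    · have : j ≤ p := by nlinarith
      nlinarith
    · rw [← hpj]
      exact h4
  rcases Nat.lt_or_ge N y with hNy | hNy
  · have : (Ioc y N) = ∅ := Finset.Ioc_eq_empty (by omega)
    rw [this, Finset.biUnion_empty] at h1
    rw [Finset.subset_empty.1 h1]
    simp
    have := HH_nonneg N
    positivity
  calc (S.card : ℝ)
      ≤ (((Ioc y N).biUnion (fun ℓ => (Ioc 0 N).biUnion (fun j =>
        (Ioc 0 N).filter (fun n => ℓ * (1 + j * ℓ) ∣ n)))).card : ℝ) := by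
        exact_mod_cast Finset.card_le_card h1
    _ ≤ ∑ ℓ ∈ Ioc y N, (((Ioc 0 N).biUnion (fun j =>
        (Ioc 0 N).filter (fun n => ℓ * (1 + j * ℓ) ∣ n))).card : ℝ) := by
        exact_mod_cast Finset.card_biUnion_le
    _ ≤ ∑ ℓ ∈ Ioc y N, ∑ j ∈ Ioc 0 N,
        (((Ioc 0 N).filter (fun n => ℓ * (1 + j * ℓ) ∣ n)).card : ℝ) := by
        refine Finset.sum_le_sum fun ℓ _ => ?_
        exact_mod_cast Finset.card_biUnion_le
    _ ≤ ∑ ℓ ∈ Ioc y N, ∑ j ∈ Ioc 0 N, (N : ℝ) * ((((ℓ : ℝ) ^ 2)⁻¹) * (1 / j)) := by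
        refine Finset.sum_le_sum fun ℓ hℓ => Finset.sum_le_sum fun j hj => ?_
        have hℓ' := Finset.mem_Ioc.1 hℓ
        have hj' := Finset.mem_Ioc.1 hj
        have hℓ0 : (0 : ℝ) < ℓ := by
          have : 0 < ℓ := by omega
          exact_mod_cast this
        have hj0 : (0 : ℝ) < j := by
          have : 0 < j := by omega
          exact_mod_cast this
        refine (card_mult N _).trans ?_
        push_cast
        rw [div_eq_mul_inv]
        refine mul_le_mul_of_nonneg_left ?_ (by positivity)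
        rw [one_div, ← mul_inv]
        refine inv_anti₀ (by positivity) ?_
        nlinarith [mul_pos hℓ0 hj0]
    _ = (N * HH N) * ∑ ℓ ∈ Ioc y N, (((ℓ : ℝ) ^ 2)⁻¹) := by
        unfold HH
        rw [Finset.mul_sum]
        refine Finset.sum_congr rfl fun ℓ _ => ?_
        rw [Finset.mul_sum, Finset.sum_mul]
        refine Finset.sum_congr rfl fun j _ => ?_
        ring
    _ ≤ (N * HH N) * ((y : ℝ)⁻¹ - (N : ℝ)⁻¹) := by
        refine mul_le_mul_of_nonneg_left (sum_Ioc_inv_sq_le_sub hy.ne' hNy) ?_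
        have := HH_nonneg N
        positivity
    _ ≤ N * HH N / y := by
        rw [div_eq_mul_inv]
        have h2 : (0 : ℝ) ≤ (N : ℝ)⁻¹ := by positivity
        have := HH_nonneg N
        exact mul_le_mul_of_nonneg_left (by linarith) (by positivity)

end H19AB
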