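import Mathlib

/-!
# Radicals, totients and multinomial numbers
-/

namespace H19AB

open Finset
open scoped BigOperators

/-- The product of the distinct prime factors. -/
def rad (n : ℕ) : ℕ := ∏ p ∈ n.primeFactors, p

/-- The number of prime factors with multiplicity. -/
def Om (n : ℕ) : ℕ := n.primeFactorsList.length

theorem rad_dvd (n : ℕ) : rad n ∣ n := Nat.prod_primeFactors_dvd n

theorem rad_pf (n : ℕ) : (rad n).primeFactors = n.primeFactors :=
  Nat.primeFactors_prod_primeFactors n

theorem rad_ne_zero (n : ℕ) : rad n ≠ 0 :=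
  Finset.prod_ne_zero_iff.2 fun p hp => (Nat.prime_of_mem_primeFactors hp).ne_zero

theorem rad_sqf (n : ℕ) : Squarefree (rad n) := by
  unfold rad
  have : ∀ s : Finset ℕ, (∀ p ∈ s, p.Prime) → Squarefree (s.prod id) := by
    intro s
    induction s using Finset.induction_on with
    | empty => intro _; simp
    | insert p s hp ih =>
      intro h
      rw [Finset.prod_insert hp, Nat.squarefree_mul_iff]
      refine ⟨?_, (h p (Finset.mem_insert_self _ _)).squarefree,
        ih fun q hq => h q (Finset.mem_insert_of_mem hq)⟩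
      refine Nat.Coprime.prod_right fun q hq => ?_
      exact (Nat.coprime_primes (h p (Finset.mem_insert_self _ _))
        (h q (Finset.mem_insert_of_mem hq))).2 (fun e => hp (e ▸ hq))
  have h := this n.primeFactors fun p hp => Nat.prime_of_mem_primeFactors hp
  simpa using h

theorem rad_of_sqf {n : ℕ} (h : Squarefree n) : rad n = n :=
  Nat.prod_primeFactors_of_squarefree h

theorem two_le_rad {n : ℕ} (hn : 2 ≤ n) : 2 ≤ rad n := by
  obtain ⟨p, hp, hpn⟩ := Nat.exists_prime_and_dvd (show n ≠ 1 by omega)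
  have h1 : p ∣ rad n :=
    Finset.dvd_prod_of_mem _ (Nat.mem_primeFactors.2 ⟨hp, hpn, by omega⟩)
  exact hp.two_le.trans (Nat.le_of_dvd (Nat.pos_of_ne_zero (rad_ne_zero n)) h1)

/-- The totient of a multiple with the same prime factors. -/
theorem tot_mul {R s : ℕ} (hR : R ≠ 0) (hs : s ≠ 0) (h : s.primeFactors ⊆ R.primeFactors) :
    Nat.totient (R * s) = Nat.totient R * s := by
  have h1 : (R * s).primeFactors = R.primeFactors := by
    rw [Nat.primeFactors_mul hR hs, Finset.union_eq_left.2 h]
  have h2 := Nat.totient_mul_prod_primeFactors (R * s)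
  have h3 := Nat.totient_mul_prod_primeFactors R
  rw [h1] at h2
  have h4 : 0 < ∏ p ∈ R.primeFactors, p := Nat.pos_of_ne_zero (rad_ne_zero R)
  apply Nat.eq_of_mul_eq_mul_right h4
  calc Nat.totient (R * s) * ∏ p ∈ R.primeFactors, p
      = s * (R * ∏ p ∈ R.primeFactors, (p - 1)) := by rw [h2]; ring
    _ = s * (Nat.totient R * ∏ p ∈ R.primeFactors, p) := by rw [h3]
    _ = _ := by ring

theorem tot_rad (n : ℕ) : Nat.totient n * rad n = n * Nat.totient (rad n) := by
  have h2 := Nat.totient_mul_prod_primeFactors n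
  have h3 := Nat.totient_mul_prod_primeFactors (rad n)
  rw [rad_pf] at h3
  have h4 : 0 < rad n := Nat.pos_of_ne_zero (rad_ne_zero n)
  have h5 : Nat.totient (rad n) = ∏ p ∈ n.primeFactors, (p - 1) := by
    apply Nat.eq_of_mul_eq_mul_right h4
    calc Nat.totient (rad n) * rad n = rad n * ∏ p ∈ n.primeFactors, (p - 1) := h3
      _ = _ := by ring
  rw [h5]
  exact h2

theorem Om_one : Om 1 = 0 := by simp [Om]

theorem Om_mul {m n : ℕ} (hm : m ≠ 0) (hn : n ≠ 0) : Om (m * n) = Om m + Om n :=
  ArithmeticFunction.cardFactors_mul hm hn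

theorem Om_eq_one {n : ℕ} : Om n = 1 ↔ n.Prime := ArithmeticFunction.cardFactors_eq_one_iff_prime

theorem Om_pos {n : ℕ} : 0 < Om n ↔ 1 < n := ArithmeticFunction.cardFactors_pos_iff_one_lt

theorem Om_le_log (n : ℕ) (hn : n ≠ 0) : 2 ^ Om n ≤ n := by
  unfold Om
  have h1 := Nat.prod_primeFactorsList hn
  have h2 : ∀ l : List ℕ, (∀ p ∈ l, 2 ≤ p) → 2 ^ l.length ≤ l.prod := by
    intro l
    induction l with
    | nil => intro _; simp
    | cons p l ih =>
      intro h
      rw [List.length_cons, List.prod_cons, pow_succ, mul_comm]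
      exact Nat.mul_le_mul (h p (by simp)) (ih fun q hq => h q (by simp [hq]))
  calc 2 ^ n.primeFactorsList.length ≤ n.primeFactorsList.prod :=
        h2 _ fun p hp => (Nat.prime_of_mem_primeFactorsList hp).two_le
    _ = n := h1

/-- The product of the factorials of the exponents. -/
def Fc (s : ℕ) : ℕ := ∏ p ∈ s.primeFactors, (s.factorization p).factorial

/-- The number of orderings of the prime factors. -/
def Mn (s : ℕ) : ℚ := ((Om s).factorial : ℚ) / (Fc s : ℚ)

theorem Mn_one : Mn 1 = 1 := by
  simp [Mn, Fc, Om_one]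

theorem Fc_pos (s : ℕ) : 0 < Fc s := Finset.prod_pos fun p _ => Nat.factorial_pos _

theorem Om_eq_sum (s : ℕ) : Om s = ∑ p ∈ s.primeFactors, s.factorization p := by
  have := ArithmeticFunction.cardFactors_eq_sum_factorization (n := s)
  rw [Finsupp.sum, Nat.support_factorization] at this
  exact this

theorem fac_le_Om (s p : ℕ) : s.factorization p ≤ Om s := by
  by_cases h : p ∈ s.primeFactors
  · rw [Om_eq_sum]
    exact Finset.single_le_sum (f := fun p => s.factorization p) (fun _ _ => Nat.zero_le _) h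
  · have : s.factorization p = 0 := by
      rw [← Nat.support_factorization] at h
      exact Finsupp.notMem_support_iff.1 h
    omega

theorem Fc_div {s p : ℕ} (hs : s ≠ 0) (hp : p ∈ s.primeFactors) :
    Fc s = s.factorization p * Fc (s / p) := by
  have hpp := Nat.prime_of_mem_primeFactors hp
  have hps := Nat.dvd_of_mem_primeFactors hp
  have h1 : Fc (s / p) = ∏ q ∈ s.primeFactors, ((s / p).factorization q).factorial := by
    unfold Fc
    apply Finset.prod_subset (Nat.primeFactors_mono (Nat.div_dvd_of_dvd hps) hs)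
    intro q _ hq
    have : (s / p).factorization q = 0 := by
      rw [← Nat.support_factorization] at hq
      exact Finsupp.notMem_support_iff.1 hq
    rw [this, Nat.factorial_zero]
  have hfac : (s / p).factorization = s.factorization - Finsupp.single p 1 := by
    rw [Nat.factorization_div hps, hpp.factorization]
  have hpos : 0 < s.factorization p := hpp.factorization_pos_of_dvd hs hps
  rw [h1, Fc, ← Finset.mul_prod_erase _ _ hp, ← Finset.mul_prod_erase _ _ hp, hfac]
  have h2 : ∀ q ∈ s.primeFactors.erase p,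
      ((s.factorization - Finsupp.single p 1 : ℕ →₀ ℕ) q).factorial =
      (s.factorization q).factorial := by
    intro q hq
    have : q ≠ p := Finset.ne_of_mem_erase hq
    rw [Finsupp.tsub_apply, Finsupp.single_apply, if_neg this.symm, Nat.sub_zero]
  rw [Finset.prod_congr rfl h2]
  have h3 : (s.factorization - Finsupp.single p 1 : ℕ →₀ ℕ) p = s.factorization p - 1 := by
    rw [Finsupp.tsub_apply, Finsupp.single_apply, if_pos rfl]
  rw [h3, ← mul_assoc, Nat.mul_factorial_pred hpos.ne']

theorem Om_div {s p : ℕ} (hs : s ≠ 0) (hp : p ∈ s.primeFactors) : Om s = Om (s / p) + 1 := by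
  have hpp := Nat.prime_of_mem_primeFactors hp
  have hps := Nat.dvd_of_mem_primeFactors hp
  have h1 : s = s / p * p := (Nat.div_mul_cancel hps).symm
  have h2 : s / p ≠ 0 := by
    intro h
    rw [h, zero_mul] at h1
    exact hs h1
  conv_lhs => rw [h1]
  rw [Om_mul h2 hpp.ne_zero, Om_eq_one.2 hpp]

theorem Mn_rec {s : ℕ} (hs : 2 ≤ s) : ∑ p ∈ s.primeFactors, Mn (s / p) = Mn s := by
  have hs0 : s ≠ 0 := by omega
  have hΩ : 0 < Om s := Om_pos.2 (by omega)
  have h1 : ∀ p ∈ s.primeFactors, Mn (s / p) =
      (((Om s - 1).factorial : ℚ) / (Fc s : ℚ)) * (s.factorization p : ℚ) := by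
    intro p hp
    have h2 := Fc_div hs0 hp
    have h3 := Om_div hs0 hp
    have h4 : Om (s / p) = Om s - 1 := by omega
    unfold Mn
    rw [h4, h2]
    have h5 : (0 : ℚ) < Fc (s / p) := by exact_mod_cast Fc_pos _
    have hpos : 0 < s.factorization p :=
      (Nat.prime_of_mem_primeFactors hp).factorization_pos_of_dvd hs0
        (Nat.dvd_of_mem_primeFactors hp)
    have h6 : (0 : ℚ) < s.factorization p := by exact_mod_cast hpos
    push_cast
    field_simp
  rw [Finset.sum_congr rfl h1, ← Finset.mul_sum]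
  have h2 : ∑ p ∈ s.primeFactors, (s.factorization p : ℚ) = Om s := by
    rw [Om_eq_sum]
    push_cast
    rfl
  rw [h2]
  unfold Mn
  have h3 : (Om s).factorial = Om s * (Om s - 1).factorial := (Nat.mul_factorial_pred hΩ.ne').symm
  rw [h3]
  push_cast
  ring

/-- Sums over the maximal proper divisors. -/
theorem sum_max {s : ℕ} (hs : 2 ≤ s) (f : ℕ → ℚ) :
    ∑ t ∈ s.properDivisors.filter (fun t => Om t + 1 = Om s), f t =
      ∑ p ∈ s.primeFactors, f (s / p) := by
  have hs0 : s ≠ 0 := by omega
  have h1 : s.properDivisors.filter (fun t => Om t + 1 = Om s) =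
      s.primeFactors.image (fun p => s / p) := by
    ext t
    simp only [Finset.mem_filter, Nat.mem_properDivisors, Finset.mem_image]
    constructor
    · rintro ⟨⟨⟨q, hq⟩, h3⟩, h4⟩
      have ht0 : t ≠ 0 := by
        rintro rfl
        simp at hq
        exact hs0 hq
      have hq0 : q ≠ 0 := by
        rintro rfl
        simp at hq
        exact hs0 hq
      have h5 : Om q = 1 := by
        rw [hq, Om_mul ht0 hq0] at h4
        omega
      refine ⟨q, Nat.mem_primeFactors.2 ⟨Om_eq_one.1 h5, ⟨t, by rw [hq]; ring⟩, hs0⟩, ?_⟩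
      rw [hq]
      exact Nat.mul_div_cancel _ (Nat.pos_of_ne_zero hq0)
    · rintro ⟨p, hp, rfl⟩
      have hpp := Nat.prime_of_mem_primeFactors hp
      have hps := Nat.dvd_of_mem_primeFactors hp
      exact ⟨⟨Nat.div_dvd_of_dvd hps, Nat.div_lt_self (by omega) hpp.one_lt⟩,
        (Om_div hs0 hp).symm⟩
  rw [h1, Finset.sum_image]
  intro p hp q hq h
  have hps := Nat.dvd_of_mem_primeFactors hp
  have hqs := Nat.dvd_of_mem_primeFactors hq
  have hsp : 0 < s / p := Nat.div_pos (Nat.le_of_dvd (by omega) hps)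
    (Nat.prime_of_mem_primeFactors hp).pos
  have e1 := Nat.div_mul_cancel hps
  have e2 := Nat.div_mul_cancel hqs
  simp only at h
  rw [← h] at e2
  exact Nat.eq_of_mul_eq_mul_left hsp (e1.trans e2.symm)

theorem Om_lt {s t : ℕ} (ht : t ∈ s.properDivisors) : Om t < Om s := by
  obtain ⟨⟨q, hq⟩, hlt⟩ := Nat.mem_properDivisors.1 ht
  have hs0 : s ≠ 0 := by omega
  have ht0 : t ≠ 0 := by
    rintro rfl
    simp at hq
    exact hs0 hq
  have hq0 : q ≠ 0 := by
    rintro rfl
    simp at hq
    exact hs0 hq
  have hq1 : 1 < q := by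
    rcases Nat.lt_or_ge 1 q with h | h
    · exact h
    · have : q = 1 := by omega
      subst this
      omega
  have := Om_pos.2 hq1
  rw [hq, Om_mul ht0 hq0]
  omega

end H19AB
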