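import Pool.Agent.H19AB.Sqf
import Pool.Agent.H19AB.Mult

/-!
# The criterion for non-integrality
-/

namespace H19AB

open Finset
open scoped BigOperators

section
variable {ℓ : ℕ} [hℓ : Fact ℓ.Prime]

private theorem nn {x y : ℚ} {c : ℚ} (hx : padicNorm ℓ x ≤ c) (hy : padicNorm ℓ y ≤ c) :
    padicNorm ℓ (x + y) ≤ c := padicNorm.nonarchimedean.trans (max_le hx hy)

private theorem nlt {x y : ℚ} {c : ℚ} (hx : padicNorm ℓ x < c) (hy : padicNorm ℓ y < c) :
    padicNorm ℓ (x + y) < c := lt_of_le_of_lt padicNorm.nonarchimedean (max_lt hx hy)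

private theorem nmul {x y : ℚ} (hx : padicNorm ℓ x ≤ 1) (hy : padicNorm ℓ y ≤ 1) :
    padicNorm ℓ (x * y) ≤ 1 := by
  rw [padicNorm.mul]
  exact mul_le_one₀ hx (padicNorm.nonneg _) hy

private theorem nmul_lt {x y : ℚ} (hx : padicNorm ℓ x < 1) (hy : padicNorm ℓ y ≤ 1) :
    padicNorm ℓ (x * y) < 1 := by
  rw [padicNorm.mul]
  exact mul_lt_one_of_nonneg_of_lt_one_left (padicNorm.nonneg _) hx hy

private theorem npow_le {x : ℚ} (hx : padicNorm ℓ x ≤ 1) (k : ℕ) : padicNorm ℓ (x ^ k) ≤ 1 := by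
  induction k with
  | zero => simp
  | succ k ih => rw [pow_succ]; exact nmul ih hx

private theorem npow_lt {x : ℚ} (hx : padicNorm ℓ x < 1) {k : ℕ} (hk : k ≠ 0) :
    padicNorm ℓ (x ^ k) < 1 := by
  obtain ⟨j, rfl⟩ := Nat.exists_eq_succ_of_ne_zero hk
  rw [pow_succ, mul_comm]
  exact nmul_lt hx (npow_le hx.le j)

private theorem npow_eq {x : ℚ} (k : ℕ) : padicNorm ℓ (x ^ k) = (padicNorm ℓ x) ^ k := by
  induction k with
  | zero => simp
  | succ k ih => rw [pow_succ, padicNorm.mul, ih, pow_succ]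

private theorem cast_D (n : ℕ) : ((n : ℚ) - Nat.totient n) = ((n - Nat.totient n : ℕ) : ℚ) := by
  rw [Nat.cast_sub (Nat.totient_le n)]

/-- Integrality at `ℓ` away from the bad squarefree divisors. -/
theorem norm_aq_le : ∀ d : ℕ, 1 ≤ d → ¬ ℓ ∣ d →
    (∀ e, e ∣ d → Squarefree e → e ≠ 1 → ¬ ℓ ∣ e - Nat.totient e) →
    padicNorm ℓ (aq d) ≤ 1 := by
  intro d
  induction d using Nat.strong_induction_on with
  | _ d ih =>
    intro h1 hℓd hG
    rcases Nat.lt_or_ge d 2 with h | h
    · rw [aq_le_one (by omega)]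
      simp
    · have hd0 : d ≠ 0 := by omega
      have hD : ¬ ℓ ∣ d - Nat.totient d := by
        intro hdiv
        have h2 : ℓ ∣ d * (rad d - Nat.totient (rad d)) := by
          have : d * (rad d - Nat.totient (rad d)) = (d - Nat.totient d) * rad d := by
            rw [Nat.mul_sub, Nat.sub_mul, tot_rad]
          rw [this]
          exact dvd_mul_of_dvd_left hdiv _
        rcases (Nat.Prime.dvd_mul hℓ.out).1 h2 with h3 | h3
        · exact hℓd h3
        · have := two_le_rad h
          exact hG _ (rad_dvd d) (rad_sqf d) (by omega) h3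
      have e1 := aq_rec d h
      rw [← Nat.insert_self_properDivisors hd0,
        Finset.sum_insert Nat.self_notMem_properDivisors] at e1
      have e2 : ((d - Nat.totient d : ℕ) : ℚ) * aq d =
          d + ∑ x ∈ d.properDivisors, (Nat.totient x : ℚ) * aq x := by
        rw [← cast_D]
        linarith
      have e3 : padicNorm ℓ (((d - Nat.totient d : ℕ) : ℚ) * aq d) ≤ 1 := by
        rw [e2]
        refine nn (padicNorm.of_nat d) (padicNorm.sum_le' (fun x hx => ?_) zero_le_one)
        have hx' := Nat.mem_properDivisors.1 hx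
        refine nmul (padicNorm.of_nat _) (ih x hx'.2
          (Nat.pos_of_dvd_of_pos hx'.1 (by omega)) (fun h => hℓd (h.trans hx'.1)) ?_)
        intro e he
        exact hG e (he.trans hx'.1)
      rw [padicNorm.mul, (padicNorm.nat_eq_one_iff _).2 hD, one_mul] at e3
      exact e3

variable {R : ℕ}

private theorem top (hR : Squarefree R) (hR2 : 2 ≤ R) (hD : ℓ ∣ R - Nat.totient R)
    (hG : ∀ e, e ∣ R → e ≠ 1 → e ≠ R → ¬ ℓ ∣ e - Nat.totient e) :
    padicNorm ℓ (((R : ℚ) - Nat.totient R) * aq R - -(ArithmeticFunction.moebius R : ℚ) * R)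
      < 1 := by
  have hR0 : R ≠ 0 := by omega
  have hφ : Nat.totient R < R := Nat.totient_lt R (by omega)
  have hφ' : (Nat.totient R : ℚ) < R := by exact_mod_cast hφ
  have h0 : ((R : ℚ) - Nat.totient R) ≠ 0 := by linarith
  have hn : padicNorm ℓ ((R : ℚ) - Nat.totient R) < 1 := by
    rw [cast_D]
    exact (padicNorm.nat_lt_one_iff _).2 hD
  rw [aq_sqf R hR, ← Nat.insert_self_properDivisors hR0,
    Finset.sum_insert Nat.self_notMem_properDivisors]
  have h1 : ((R : ℚ) - Nat.totient R) * (g R + ∑ x ∈ R.properDivisors, g x) -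
      -(ArithmeticFunction.moebius R : ℚ) * R =
      ((R : ℚ) - Nat.totient R) * ∑ x ∈ R.properDivisors, g x := by
    have : ((R : ℚ) - Nat.totient R) * g R = -(ArithmeticFunction.moebius R : ℚ) * R := by
      unfold g
      rw [if_neg (by omega)]
      field_simp
    rw [mul_add, this]
    ring
  rw [h1]
  refine nmul_lt hn (padicNorm.sum_le' (fun x hx => ?_) zero_le_one)
  have hx' := Nat.mem_properDivisors.1 hx
  unfold g
  by_cases h : x = 1
  · rw [if_pos h]
    simp
  · rw [if_neg h, padicNorm.div, cast_D,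
      (padicNorm.nat_eq_one_iff _).2 (hG x hx'.1 h (by omega)), div_one]
    refine nmul ?_ (padicNorm.of_nat _)
    rw [padicNorm.neg]
    exact padicNorm.of_int _

private theorem step (hR : Squarefree R) (hR2 : 2 ≤ R) (hℓR : ¬ ℓ ∣ R)
    (hG : ∀ e, e ∣ R → e ≠ 1 → e ≠ R → ¬ ℓ ∣ e - Nat.totient e)
    {s : ℕ} (hs : s ≠ 0) (hsR : s.primeFactors ⊆ R.primeFactors) :
    ∃ I : ℚ, padicNorm ℓ I ≤ 1 ∧
      ((R : ℚ) - Nat.totient R) * (s * aq (R * s)) =
        I + (Nat.totient R : ℚ) * ∑ t ∈ s.properDivisors, t * aq (R * t) := by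
  have hR0 : R ≠ 0 := by omega
  have hRs : R * s ≠ 0 := Nat.mul_ne_zero hR0 hs
  have hs1 : 1 ≤ s := Nat.pos_of_ne_zero hs
  have hpf : (R * s).primeFactors = R.primeFactors := by
    rw [Nat.primeFactors_mul hR0 hs, Finset.union_eq_left.2 hsR]
  have hℓRs : ¬ ℓ ∣ R * s := by
    intro h
    rcases (Nat.Prime.dvd_mul hℓ.out).1 h with h | h
    · exact hℓR h
    · exact hℓR (Nat.dvd_of_mem_primeFactors (hsR (Nat.mem_primeFactors.2 ⟨hℓ.out, h, hs⟩)))
  have e1 := aq_rec (R * s) (by nlinarith)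
  rw [← Finset.sum_filter_add_sum_filter_not (R * s).divisors (fun d => R ∣ d)] at e1
  have h1 : (R * s).divisors.filter (fun d => R ∣ d) = s.divisors.image (fun x => R * x) := by
    ext d
    simp only [Finset.mem_filter, Nat.mem_divisors, Finset.mem_image]
    constructor
    · rintro ⟨⟨h2, h3⟩, x, rfl⟩
      exact ⟨x, ⟨Nat.dvd_of_mul_dvd_mul_left (by omega) h2, hs⟩, rfl⟩
    · rintro ⟨x, ⟨h2, h3⟩, rfl⟩
      exact ⟨⟨Nat.mul_dvd_mul_left R h2, hRs⟩, dvd_mul_right R x⟩
  have h2 : ∑ d ∈ (R * s).divisors.filter (fun d => R ∣ d), (Nat.totient d : ℚ) * aq d =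
      (Nat.totient R : ℚ) * ∑ t ∈ s.divisors, t * aq (R * t) := by
    rw [h1, Finset.sum_image (fun x _ y _ h => Nat.eq_of_mul_eq_mul_left (by omega) h),
      Finset.mul_sum]
    refine Finset.sum_congr rfl fun t ht => ?_
    have ht' := Nat.dvd_of_mem_divisors ht
    have ht0 : t ≠ 0 := (Nat.pos_of_dvd_of_pos ht' (by omega)).ne'
    rw [tot_mul hR0 ht0 ((Nat.primeFactors_mono ht' hs).trans hsR)]
    push_cast
    ring
  refine ⟨((R * s : ℕ) : ℚ) + ∑ d ∈ (R * s).divisors.filter (fun d => ¬ R ∣ d),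
    (Nat.totient d : ℚ) * aq d, ?_, ?_⟩
  · refine nn (padicNorm.of_nat _) (padicNorm.sum_le' (fun d hd => ?_) zero_le_one)
    obtain ⟨h3, h4⟩ := Finset.mem_filter.1 hd
    have h3' := Nat.dvd_of_mem_divisors h3
    refine nmul (padicNorm.of_nat _) (norm_aq_le d (Nat.pos_of_dvd_of_pos h3' (by omega))
      (fun h => hℓRs (h.trans h3')) ?_)
    intro e he hesq he1
    have heR : e ∣ R := by
      have h5 : e.primeFactors ⊆ R.primeFactors := by
        rw [← hpf]
        exact Nat.primeFactors_mono (he.trans h3') hRs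
      calc e = rad e := (rad_of_sqf hesq).symm
        _ ∣ rad R := Finset.prod_dvd_prod_of_subset _ _ _ h5
        _ = R := rad_of_sqf hR
    exact hG e heR he1 (fun h => h4 (h ▸ he))
  · rw [h2, ← Nat.insert_self_properDivisors hs,
      Finset.sum_insert Nat.self_notMem_properDivisors] at e1
    push_cast at e1 ⊢
    linear_combination e1

private theorem Mn_norm {s : ℕ} (h : Om s < ℓ) : padicNorm ℓ (Mn s) = 1 := by
  unfold Mn
  have h1 : ¬ ℓ ∣ (Om s).factorial := by
    rw [Nat.Prime.dvd_factorial hℓ.out]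
    omega
  have h2 : ¬ ℓ ∣ Fc s := by
    unfold Fc
    intro h3
    obtain ⟨p, hp, h4⟩ := (Prime.dvd_finsetProd_iff hℓ.out.prime _).1 h3
    rw [Nat.Prime.dvd_factorial hℓ.out] at h4
    have := fac_le_Om s p
    omega
  rw [padicNorm.div, (padicNorm.nat_eq_one_iff _).2 h1, (padicNorm.nat_eq_one_iff _).2 h2,
    div_one]

private theorem main (hR : Squarefree R) (hR2 : 2 ≤ R) (hℓR : ¬ ℓ ∣ R)
    (hD : ℓ ∣ R - Nat.totient R)
    (hG : ∀ e, e ∣ R → e ≠ 1 → e ≠ R → ¬ ℓ ∣ e - Nat.totient e) :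
    ∀ s : ℕ, s ≠ 0 → s.primeFactors ⊆ R.primeFactors → Om s < ℓ →
      padicNorm ℓ (((R : ℚ) - Nat.totient R) ^ (Om s + 1) * (s * aq (R * s)) -
        (-(ArithmeticFunction.moebius R : ℚ) * R) * (Nat.totient R : ℚ) ^ Om s * Mn s) < 1 := by
  have hn : padicNorm ℓ ((R : ℚ) - Nat.totient R) < 1 := by
    rw [cast_D]
    exact (padicNorm.nat_lt_one_iff _).2 hD
  set D : ℚ := (R : ℚ) - Nat.totient R with hDdef
  set κ : ℚ := -(ArithmeticFunction.moebius R : ℚ) * R with hκ
  have hκn : padicNorm ℓ κ ≤ 1 := by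
    rw [hκ]
    refine nmul ?_ (padicNorm.of_nat _)
    rw [padicNorm.neg]
    exact padicNorm.of_int _
  have hfn : padicNorm ℓ (Nat.totient R : ℚ) ≤ 1 := padicNorm.of_nat _
  intro s
  induction s using Nat.strong_induction_on with
  | _ s ih =>
    intro hs hsR hΩ
    rcases Nat.lt_or_ge s 2 with h | h
    · have : s = 1 := by omega
      subst this
      rw [Om_one, Mn_one]
      have e : D ^ (0 + 1) * (((1 : ℕ) : ℚ) * aq (R * 1)) -
          κ * (Nat.totient R : ℚ) ^ 0 * 1 = D * aq R - κ := by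
        rw [mul_one R]
        push_cast
        ring
      rw [e]
      exact top hR hR2 hD hG
    · obtain ⟨I, hI, hstep⟩ := step hR hR2 hℓR hG hs hsR
      rw [← hDdef] at hstep
      have hΩ1 : 1 ≤ Om s := Om_pos.2 (by omega)
      have hsub : ∀ t ∈ s.properDivisors, t ≠ 0 ∧ t.primeFactors ⊆ R.primeFactors ∧
          t < s ∧ Om t < Om s := by
        intro t ht
        have ht' := Nat.mem_properDivisors.1 ht
        exact ⟨(Nat.pos_of_dvd_of_pos ht'.1 (by omega)).ne',
          (Nat.primeFactors_mono ht'.1 hs).trans hsR, ht'.2, Om_lt ht⟩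
      have hc : ∀ t ∈ s.properDivisors, padicNorm ℓ (D ^ (Om t + 1) * (t * aq (R * t))) ≤ 1 := by
        intro t ht
        obtain ⟨h1, h2, h3, h4⟩ := hsub t ht
        have h5 := ih t h3 h1 h2 (by omega)
        have h6 : D ^ (Om t + 1) * (t * aq (R * t)) =
            (D ^ (Om t + 1) * (t * aq (R * t)) - κ * (Nat.totient R : ℚ) ^ Om t * Mn t) +
              κ * (Nat.totient R : ℚ) ^ Om t * Mn t := by ring
        rw [h6]
        refine nn h5.le (nmul (nmul hκn (npow_le hfn _)) ?_)
        rw [Mn_norm (by omega)]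
      have hM := Mn_rec h
      rw [← sum_max h Mn] at hM
      have key : D ^ (Om s + 1) * (s * aq (R * s)) - κ * (Nat.totient R : ℚ) ^ Om s * Mn s =
          D ^ Om s * I +
          (Nat.totient R : ℚ) *
            (∑ t ∈ s.properDivisors.filter (fun t => Om t + 1 = Om s),
              (D ^ (Om t + 1) * (t * aq (R * t)) - κ * (Nat.totient R : ℚ) ^ Om t * Mn t)) +
          (Nat.totient R : ℚ) *
            (∑ t ∈ s.properDivisors.filter (fun t => ¬ Om t + 1 = Om s),
              D ^ (Om s - (Om t + 1)) * (D ^ (Om t + 1) * (t * aq (R * t)))) := by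
        have e1 : D ^ (Om s + 1) * (s * aq (R * s)) = D ^ Om s * I +
            (Nat.totient R : ℚ) * ∑ t ∈ s.properDivisors, D ^ Om s * (t * aq (R * t)) := by
          calc D ^ (Om s + 1) * (s * aq (R * s)) = D ^ Om s * (D * (s * aq (R * s))) := by ring
            _ = D ^ Om s * I + (Nat.totient R : ℚ) *
                (D ^ Om s * ∑ t ∈ s.properDivisors, t * aq (R * t)) := by rw [hstep]; ring
            _ = _ := by rw [Finset.mul_sum]
        have e2 : ∑ t ∈ s.properDivisors.filter (fun t => Om t + 1 = Om s),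
            D ^ Om s * (t * aq (R * t)) =
            ∑ t ∈ s.properDivisors.filter (fun t => Om t + 1 = Om s),
              D ^ (Om t + 1) * (t * aq (R * t)) := by
          refine Finset.sum_congr rfl fun t ht => ?_
          rw [(Finset.mem_filter.1 ht).2]
        have e3 : ∑ t ∈ s.properDivisors.filter (fun t => ¬ Om t + 1 = Om s),
            D ^ Om s * (t * aq (R * t)) =
            ∑ t ∈ s.properDivisors.filter (fun t => ¬ Om t + 1 = Om s),
              D ^ (Om s - (Om t + 1)) * (D ^ (Om t + 1) * (t * aq (R * t))) := by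
          refine Finset.sum_congr rfl fun t ht => ?_
          obtain ⟨_, _, _, h4⟩ := hsub t (Finset.mem_filter.1 ht).1
          rw [← mul_assoc (D ^ (Om s - (Om t + 1))), ← pow_add, Nat.sub_add_cancel (by omega)]
        have e4 : κ * (Nat.totient R : ℚ) ^ Om s * Mn s = (Nat.totient R : ℚ) *
            ∑ t ∈ s.properDivisors.filter (fun t => Om t + 1 = Om s),
              κ * (Nat.totient R : ℚ) ^ Om t * Mn t := by
          rw [← hM, Finset.mul_sum, Finset.mul_sum]
          refine Finset.sum_congr rfl fun t ht => ?_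
          rw [← (Finset.mem_filter.1 ht).2]
          ring
        rw [e1, e4, ← Finset.sum_filter_add_sum_filter_not s.properDivisors
          (fun t => Om t + 1 = Om s) (fun t => D ^ Om s * (t * aq (R * t))), e2, e3,
          Finset.sum_sub_distrib]
        ring
      rw [key]
      refine nlt (nlt (nmul_lt (npow_lt hn (by omega)) hI) ?_) ?_
      · rw [mul_comm]
        refine nmul_lt (padicNorm.sum_lt' (fun t ht => ?_) one_pos) hfn
        obtain ⟨h1, h2, h3, h4⟩ := hsub t (Finset.mem_filter.1 ht).1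
        exact ih t h3 h1 h2 (by omega)
      · rw [mul_comm]
        refine nmul_lt (padicNorm.sum_lt' (fun t ht => ?_) one_pos) hfn
        obtain ⟨ht1, ht2⟩ := Finset.mem_filter.1 ht
        obtain ⟨h1, h2, h3, h4⟩ := hsub t ht1
        exact nmul_lt (npow_lt hn (by omega)) (hc t ht1)

end

/-- The criterion: if `ℓ` is a prime larger than the number of prime factors of `n`, prime to `n`,
dividing `rad n - φ (rad n)`, and dividing no `e - φ e` for a divisor `e` of `rad n` other than
`1` and `rad n`, then `a n` is not an integer. -/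
theorem crit {ℓ n : ℕ} (hℓ : ℓ.Prime) (hn : 2 ≤ n) (hℓn : ¬ ℓ ∣ n) (hΩ : Om n < ℓ)
    (hD : ℓ ∣ rad n - Nat.totient (rad n))
    (hG : ∀ e, e ∣ rad n → e ≠ 1 → e ≠ rad n → ¬ ℓ ∣ e - Nat.totient e) (k : ℤ) :
    a n ≠ k := by
  have : Fact ℓ.Prime := ⟨hℓ⟩
  set R := rad n with hRdef
  have hR2 : 2 ≤ R := two_le_rad hn
  have hR : Squarefree R := rad_sqf n
  obtain ⟨s, hs⟩ := rad_dvd n
  rw [← hRdef] at hs
  have hs0 : s ≠ 0 := by
    rintro rfl
    omega
  have hR0 : R ≠ 0 := by omega
  have hsR : s.primeFactors ⊆ R.primeFactors := by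
    rw [hRdef, rad_pf]
    exact Nat.primeFactors_mono ⟨R, by rw [hs]; ring⟩ (by omega)
  have hℓR : ¬ ℓ ∣ R := fun h => hℓn (h.trans (rad_dvd n))
  have hΩs : Om s < ℓ := by
    have : Om n = Om R + Om s := by rw [hs, Om_mul hR0 hs0]
    omega
  have hφ : Nat.totient R < R := Nat.totient_lt R (by omega)
  have hφ' : (Nat.totient R : ℚ) < R := by exact_mod_cast hφ
  have hD0 : ((R : ℚ) - Nat.totient R) ≠ 0 := by linarith
  have h1 := main hR hR2 hℓR hD hG s hs0 hsR hΩs
  rw [← hs] at h1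
  set D : ℚ := (R : ℚ) - Nat.totient R with hDdef
  have hDn : padicNorm ℓ D < 1 := by
    rw [hDdef, cast_D]
    exact (padicNorm.nat_lt_one_iff _).2 hD
  have hκ : padicNorm ℓ ((-(ArithmeticFunction.moebius R : ℚ) * R) *
      (Nat.totient R : ℚ) ^ Om s * Mn s) = 1 := by
    rw [padicNorm.mul, padicNorm.mul, padicNorm.mul, padicNorm.neg, Mn_norm hΩs, npow_eq,
      (padicNorm.nat_eq_one_iff R).2 hℓR]
    have h2 : ¬ ℓ ∣ Nat.totient R := by
      intro h
      apply hℓR
      have := (Nat.dvd_add_right hD).2 h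
      rwa [Nat.sub_add_cancel hφ.le] at this
    have h3 : padicNorm ℓ (ArithmeticFunction.moebius R : ℚ) = 1 := by
      rcases ArithmeticFunction.moebius_ne_zero_iff_eq_or.1
        (ArithmeticFunction.moebius_ne_zero_iff_squarefree.2 hR) with h | h
      · rw [h]; simp
      · rw [h]; simp
    rw [(padicNorm.nat_eq_one_iff _).2 h2, h3]
    simp
  intro hk
  have hak : aq n = (k : ℚ) := by
    rw [a_eq_aq n (by omega)] at hk
    exact_mod_cast hk
  have h4 : padicNorm ℓ (D ^ (Om s + 1) * (s * aq n)) < 1 := by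
    rw [hak, pow_succ', mul_assoc]
    refine nmul_lt hDn (nmul (npow_le hDn.le _) (nmul (padicNorm.of_nat _) (padicNorm.of_int _)))
  have h5 : padicNorm ℓ ((-(ArithmeticFunction.moebius R : ℚ) * R) *
      (Nat.totient R : ℚ) ^ Om s * Mn s) < 1 := by
    have : (-(ArithmeticFunction.moebius R : ℚ) * R) * (Nat.totient R : ℚ) ^ Om s * Mn s =
        D ^ (Om s + 1) * (s * aq n) + -(D ^ (Om s + 1) * (s * aq n) -
          (-(ArithmeticFunction.moebius R : ℚ) * R) * (Nat.totient R : ℚ) ^ Om s * Mn s) := by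
      ring
    rw [this]
    refine nlt h4 ?_
    rw [padicNorm.neg]
    exact h1
  rw [hκ] at h5
  exact lt_irrefl _ h5

end H19AB
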