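import Mathlib

/-!
# The expected absorption time `a n`

`surv n t` is the probability that the product of `t` independent uniform residues modulo `n` is
not zero, and `a n = ∑ t, surv n t` is the expected number of steps until the product is zero.
-/

namespace H19AB

open Finset
open scoped BigOperators

/-- The probability that a product of `t` uniform independent residues modulo `n` is nonzero. -/
noncomputable def surv (n t : ℕ) : ℝ :=
  (Nat.card {r : Fin t → ZMod n // ∏ i, r i ≠ 0} : ℝ) / (n : ℝ) ^ t

/-- The expected number of steps until the walk started at `1` reaches `0` modulo `n`. -/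
noncomputable def a (n : ℕ) : ℝ := ∑' t, surv n t

/-- The rational solution of the recursion. -/
def aq (n : ℕ) : ℚ :=
  if n ≤ 1 then 0 else
    ((n : ℚ) + ∑ d ∈ n.properDivisors.attach, (Nat.totient d.1 : ℚ) * aq d.1) /
      ((n : ℚ) - (Nat.totient n : ℚ))
termination_by n
decreasing_by exact (Nat.mem_properDivisors.1 d.2).2

end H19AB
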