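import Pool.Agent.H19AB.Count

/-!
# Smooth numbers with many prime factors
-/

namespace H19AB

open Finset
open scoped BigOperators

/-- The weight `(3/2)^Ω(n) / n`. -/
noncomputable def Wt : ℕ →* ℝ where
  toFun n := if n = 0 then 0 else (3 / 2 : ℝ) ^ Om n / n
  map_one' := by simp [Om_one]
  map_mul' m n := by
    by_cases hm : m = 0
    · simp [hm]
    by_cases hn : n = 0
    · simp [hn]
    rw [if_neg hm, if_neg hn, if_neg (Nat.mul_ne_zero hm hn), Om_mul hm hn, pow_add]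
    push_cast
    have : (m : ℝ) ≠ 0 := by exact_mod_cast hm
    have : (n : ℝ) ≠ 0 := by exact_mod_cast hn
    field_simp

theorem Wt_apply {n : ℕ} (hn : n ≠ 0) : Wt n = (3 / 2 : ℝ) ^ Om n / n := by
  change (if n = 0 then (0 : ℝ) else (3 / 2 : ℝ) ^ Om n / n) = _
  rw [if_neg hn]

theorem Wt_nonneg (n : ℕ) : 0 ≤ Wt n := by
  by_cases hn : n = 0
  · subst hn
    change 0 ≤ (if (0 : ℕ) = 0 then (0 : ℝ) else (3 / 2 : ℝ) ^ Om 0 / ((0 : ℕ) : ℝ))
    simp
  · rw [Wt_apply hn]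
    positivity

theorem Wt_prime {p : ℕ} (hp : p.Prime) : Wt p = 3 / 2 / p := by
  rw [Wt_apply hp.ne_zero, Om_eq_one.2 hp, pow_one]

private theorem dyadic (j : ℕ) (hj : 1 ≤ j) :
    ∑ p ∈ (Ioc (2 ^ j) (2 ^ (j + 1))).filter Nat.Prime, (1 : ℝ) / p ≤ 4 / j := by
  have hj0 : (0 : ℝ) < j := by exact_mod_cast hj
  have hl2 : 0 < Real.log 2 := Real.log_pos (by norm_num)
  have h1 : ∀ p ∈ (Ioc (2 ^ j) (2 ^ (j + 1))).filter Nat.Prime,
      (1 : ℝ) / p ≤ Real.log p * (1 / (2 ^ j * (j * Real.log 2))) := by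
    intro p hp
    obtain ⟨h2, h3⟩ := Finset.mem_filter.1 hp
    have h4 := (Finset.mem_Ioc.1 h2).1
    have h5 : ((2 : ℝ) ^ j) < p := by exact_mod_cast h4
    have h6 : (j : ℝ) * Real.log 2 ≤ Real.log p := by
      rw [← Real.log_pow]
      exact Real.log_le_log (by positivity) h5.le
    have h8 : (0 : ℝ) < p := lt_trans (by positivity) h5
    rw [mul_one_div, div_le_div_iff₀ h8 (by positivity)]
    have h7 : (0 : ℝ) < 2 ^ j := by positivity
    nlinarith [mul_le_mul h6 h5.le h7.le (by nlinarith)]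
  refine (Finset.sum_le_sum h1).trans ?_
  rw [← Finset.sum_mul]
  have h2 : ∑ p ∈ (Ioc (2 ^ j) (2 ^ (j + 1))).filter Nat.Prime, Real.log p ≤
      Real.log 4 * 2 ^ (j + 1) := by
    refine le_trans ?_ (Chebyshev.theta_le_log4_mul_x (x := 2 ^ (j + 1)) (by positivity))
    rw [Chebyshev.theta_eq_sum_Icc]
    refine Finset.sum_le_sum_of_subset_of_nonneg ?_ ?_
    · intro p hp
      obtain ⟨h2, h3⟩ := Finset.mem_filter.1 hp
      have h4 := (Finset.mem_Ioc.1 h2).2
      refine Finset.mem_filter.2 ⟨Finset.mem_Icc.2 ⟨Nat.zero_le _, ?_⟩, h3⟩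
      apply Nat.le_floor
      exact_mod_cast h4
    · intro p hp _
      have := (Finset.mem_filter.1 hp).2.one_lt
      exact Real.log_nonneg (by exact_mod_cast this.le)
  have h4 : Real.log 4 = 2 * Real.log 2 := by
    rw [show (4 : ℝ) = 2 ^ 2 by norm_num, Real.log_pow]
    push_cast
    ring
  calc (∑ p ∈ (Ioc (2 ^ j) (2 ^ (j + 1))).filter Nat.Prime, Real.log p) *
        (1 / (2 ^ j * (j * Real.log 2)))
      ≤ (Real.log 4 * 2 ^ (j + 1)) * (1 / (2 ^ j * (j * Real.log 2))) :=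
        mul_le_mul_of_nonneg_right h2 (by positivity)
    _ = 4 / j := by
        rw [h4, pow_succ]
        field_simp
        ring

/-- Mertens type upper bound. -/
theorem sum_recip (J : ℕ) (hJ : 1 ≤ J) :
    ∑ p ∈ (Ioc 0 (2 ^ J)).filter Nat.Prime, (1 : ℝ) / p ≤ 5 + 4 * Real.log J := by
  have h1 : ∀ J : ℕ, 1 ≤ J → ∑ p ∈ (Ioc 0 (2 ^ J)).filter Nat.Prime, (1 : ℝ) / p ≤
      1 / 2 + ∑ j ∈ Ioc 0 (J - 1), (4 : ℝ) / j := by
    intro J hJ
    induction J, hJ using Nat.le_induction with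
    | base =>
      have : (Ioc 0 (2 ^ 1)).filter Nat.Prime = {2} := by decide
      rw [this]
      simp
    | succ J hJ ih =>
      have e1 : Ioc 0 (2 ^ (J + 1)) = Ioc 0 (2 ^ J) ∪ Ioc (2 ^ J) (2 ^ (J + 1)) := by
        rw [Finset.Ioc_union_Ioc_eq_Ioc (Nat.zero_le _)
          (Nat.pow_le_pow_right (by norm_num) (Nat.le_succ J))]
      have e2 : Disjoint ((Ioc 0 (2 ^ J)).filter Nat.Prime)
          ((Ioc (2 ^ J) (2 ^ (J + 1))).filter Nat.Prime) := by
        refine Finset.disjoint_filter_filter ?_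
        rw [Finset.disjoint_left]
        intro x hx hx'
        have := (Finset.mem_Ioc.1 hx).2
        have := (Finset.mem_Ioc.1 hx').1
        omega
      rw [e1, Finset.filter_union, Finset.sum_union e2]
      have e3 : J + 1 - 1 = (J - 1) + 1 := by omega
      rw [e3, Finset.sum_Ioc_succ_top (Nat.zero_le _)]
      have h2 := dyadic J hJ
      have e4 : ((J - 1 + 1 : ℕ) : ℝ) = J := by
        congr 1
        omega
      rw [e4]
      linarith
  have h2 := h1 J hJ
  have h3 : ∑ j ∈ Ioc 0 (J - 1), (4 : ℝ) / j = 4 * HH (J - 1) := by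
    unfold HH
    rw [Finset.mul_sum]
    refine Finset.sum_congr rfl fun j _ => ?_
    ring
  have h4 := HH_le (J - 1)
  have h5 : Real.log ((J - 1 : ℕ) : ℝ) ≤ Real.log J := by
    rcases Nat.eq_zero_or_pos (J - 1) with h | h
    · rw [h]
      simp
      exact Real.log_nonneg (by exact_mod_cast hJ)
    · refine Real.log_le_log (by exact_mod_cast h) ?_
      exact_mod_cast Nat.sub_le J 1
  rw [h3] at h2
  linarith

private theorem inv_le_exp {t : ℝ} (h0 : 0 ≤ t) (h1 : t ≤ 3 / 4) : (1 - t)⁻¹ ≤ Real.exp (4 * t) := by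
  have h2 : (0 : ℝ) < 1 - t := by linarith
  have h3 : (1 - t)⁻¹ ≤ 1 + 4 * t := by
    rw [inv_le_iff_one_le_mul₀ h2]
    nlinarith
  have := Real.add_one_le_exp (4 * t)
  linarith

/-- The Euler product. -/
theorem prod_bound (y J : ℕ) (hJ : 1 ≤ J) (hy : y ≤ 2 ^ J) :
    ∏ p ∈ (y + 1).primesBelow, (1 - Wt p)⁻¹ ≤ Real.exp 30 * (J : ℝ) ^ 24 := by
  have hJ0 : (0 : ℝ) < J := by exact_mod_cast hJ
  have h1 : ∏ p ∈ (y + 1).primesBelow, (1 - Wt p)⁻¹ ≤
      ∏ p ∈ (y + 1).primesBelow, Real.exp (6 * (1 / p)) := by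
    refine Finset.prod_le_prod (fun p hp => ?_) (fun p hp => ?_)
    · have hpp := Nat.prime_of_mem_primesBelow hp
      have h2 : (2 : ℝ) ≤ p := by exact_mod_cast hpp.two_le
      rw [Wt_prime hpp]
      have : (3 / 2 : ℝ) / p ≤ 3 / 4 := by
        rw [div_le_iff₀ (by linarith)]
        linarith
      exact inv_nonneg.2 (by linarith)
    · have hpp := Nat.prime_of_mem_primesBelow hp
      have h2 : (2 : ℝ) ≤ p := by exact_mod_cast hpp.two_le
      rw [Wt_prime hpp]
      have h3 : (3 / 2 : ℝ) / p ≤ 3 / 4 := by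
        rw [div_le_iff₀ (by linarith)]
        linarith
      refine (inv_le_exp (by positivity) h3).trans (le_of_eq ?_)
      congr 1
      ring
  refine h1.trans ?_
  rw [← Real.exp_sum, ← Finset.mul_sum]
  have h2 : ∑ p ∈ (y + 1).primesBelow, (1 : ℝ) / p ≤ 5 + 4 * Real.log J := by
    refine le_trans ?_ (sum_recip J hJ)
    refine Finset.sum_le_sum_of_subset_of_nonneg ?_ (fun _ _ _ => by positivity)
    intro p hp
    have hpp := Nat.prime_of_mem_primesBelow hp
    have h3 := Nat.lt_of_mem_primesBelow hp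
    refine Finset.mem_filter.2 ⟨Finset.mem_Ioc.2 ⟨hpp.pos, ?_⟩, hpp⟩
    omega
  calc Real.exp (6 * ∑ p ∈ (y + 1).primesBelow, (1 : ℝ) / p)
      ≤ Real.exp (30 + 24 * Real.log J) := Real.exp_le_exp.2 (by linarith)
    _ = Real.exp 30 * (J : ℝ) ^ 24 := by
        rw [Real.exp_add]
        congr 1
        rw [show (24 : ℝ) * Real.log J = ((24 : ℕ) : ℝ) * Real.log J by norm_num,
          ← Real.log_pow, Real.exp_log (by positivity)]

/-- Smooth numbers with many prime factors. -/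
theorem tail (y J K : ℕ) (hJ : 1 ≤ J) (hy : y ≤ 2 ^ J) (A : Finset ℕ)
    (hA : ∀ g ∈ A, g ≠ 0 ∧ (∀ p, p.Prime → p ∣ g → p ≤ y) ∧ K ≤ Om g) :
    ∑ g ∈ A, (1 : ℝ) / g ≤ (2 / 3) ^ K * (Real.exp 30 * (J : ℝ) ^ 24) := by
  have h1 : ∀ {p : ℕ}, p.Prime → ‖Wt p‖ < 1 := by
    intro p hp
    have h2 : (2 : ℝ) ≤ p := by exact_mod_cast hp.two_le
    rw [Wt_prime hp, Real.norm_of_nonneg (by positivity), div_lt_one (by linarith)]
    linarith
  obtain ⟨hs1, hs2⟩ :=
    EulerProduct.summable_and_hasSum_smoothNumbers_prod_primesBelow_geometric h1 (y + 1)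
  have h3 : ∑ g ∈ A, Wt g ≤ ∏ p ∈ (y + 1).primesBelow, (1 - Wt p)⁻¹ := by
    have hmem : ∀ g ∈ A, g ∈ (y + 1).smoothNumbers := by
      intro g hg
      obtain ⟨h4, h5, _⟩ := hA g hg
      rw [Nat.mem_smoothNumbers']
      intro p hp hpg
      have := h5 p hp hpg
      omega
    rw [← hs2.tsum_eq]
    have e1 : ∑ g ∈ A, Wt g = ∑ g ∈ A.attach.image (fun g => (⟨g.1, hmem g.1 g.2⟩ :
        (y + 1).smoothNumbers)), Wt g := by
      rw [Finset.sum_image, Finset.sum_attach A (fun g => Wt g)]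
      intro a _ b _ hab
      have := congrArg Subtype.val hab
      exact Subtype.ext this
    rw [e1]
    exact hs2.summable.sum_le_tsum _ (fun i _ => Wt_nonneg i)
  calc ∑ g ∈ A, (1 : ℝ) / g ≤ ∑ g ∈ A, (2 / 3) ^ K * Wt g := by
        refine Finset.sum_le_sum fun g hg => ?_
        obtain ⟨h4, _, h6⟩ := hA g hg
        have hg0 : (0 : ℝ) < g := by exact_mod_cast Nat.pos_of_ne_zero h4
        rw [Wt_apply h4, ← mul_div_assoc]
        refine div_le_div_of_nonneg_right ?_ hg0.le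
        have h7 : (3 / 2 : ℝ) ^ K ≤ (3 / 2 : ℝ) ^ Om g :=
          pow_le_pow_right₀ (by norm_num) h6
        calc (1 : ℝ) = (2 / 3) ^ K * (3 / 2) ^ K := by
              rw [← mul_pow]
              norm_num
          _ ≤ (2 / 3) ^ K * (3 / 2) ^ Om g :=
              mul_le_mul_of_nonneg_left h7 (by positivity)
    _ = (2 / 3) ^ K * ∑ g ∈ A, Wt g := by rw [Finset.mul_sum]
    _ ≤ (2 / 3) ^ K * (Real.exp 30 * (J : ℝ) ^ 24) :=
        mul_le_mul_of_nonneg_left (h3.trans (prod_bound y J hJ hy)) (by positivity)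

/-- The size of a smooth number. -/
theorem le_pow_Om {g y : ℕ} (hg : g ≠ 0) (h : ∀ p, p.Prime → p ∣ g → p ≤ y) : g ≤ y ^ Om g := by
  unfold Om
  have h1 := Nat.prod_primeFactorsList hg
  have h2 : ∀ l : List ℕ, (∀ p ∈ l, p ≤ y) → l.prod ≤ y ^ l.length := by
    intro l
    induction l with
    | nil => intro _; simp
    | cons p l ih =>
      intro h
      rw [List.length_cons, List.prod_cons, pow_succ, mul_comm]
      exact Nat.mul_le_mul (ih fun q hq => h q (by simp [hq])) (h p (by simp))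
  calc g = g.primeFactorsList.prod := h1.symm
    _ ≤ _ := h2 _ fun p hp => h p (Nat.prime_of_mem_primeFactorsList hp)
        (Nat.dvd_of_mem_primeFactorsList hp)

end H19AB
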