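import Pool.Agent.H19AB.Lattice
import Pool.Agent.H19AB.Tail

/-!
# Counting the primes `P` for a fixed cofactor `m`
-/

namespace H19AB

open Finset
open scoped BigOperators

theorem card_pf_le_log {x : ℕ} (hx : x ≠ 0) : x.primeFactors.card ≤ Nat.log 2 x := by
  have h1 : x.primeFactors.card ≤ Om x := by
    unfold Om
    exact List.toFinset_card_le _
  exact h1.trans (Nat.le_log_of_pow_le (by norm_num) (Om_le_log x hx))

theorem card_divisors_rad (m : ℕ) : (rad m).divisors.card ≤ 2 ^ m.primeFactors.card := by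
  rw [Nat.card_divisors (rad_ne_zero m), rad_pf, ← Finset.prod_const]
  refine Finset.prod_le_prod' fun p hp => ?_
  have := (Nat.squarefree_iff_factorization_le_one (rad_ne_zero m)).1 (rad_sqf m) p
  omega

/-- The large primes dividing some `e - φ e`. -/
noncomputable def Lset (m y : ℕ) : Finset ℕ :=
  ((rad m).divisors.erase 1).biUnion (fun e => (e - Nat.totient e).primeFactors.filter (y < ·))

theorem card_Lset (m y N : ℕ) (hm : m ≠ 0) (hmN : m ≤ N) :
    (Lset m y).card ≤ 2 ^ m.primeFactors.card * Nat.log 2 N := by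
  unfold Lset
  calc (((rad m).divisors.erase 1).biUnion
        (fun e => (e - Nat.totient e).primeFactors.filter (y < ·))).card
      ≤ ∑ e ∈ (rad m).divisors.erase 1,
          ((e - Nat.totient e).primeFactors.filter (y < ·)).card := Finset.card_biUnion_le
    _ ≤ ∑ e ∈ (rad m).divisors.erase 1, Nat.log 2 N := by
        refine Finset.sum_le_sum fun e he => ?_
        obtain ⟨he1, he2⟩ := Finset.mem_erase.1 he
        have he3 := Nat.dvd_of_mem_divisors he2
        have he0 : e ≠ 0 := by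
          rintro rfl
          exact rad_ne_zero m (Nat.eq_zero_of_zero_dvd he3)
        have h1 : e - Nat.totient e ≠ 0 := by
          have := Nat.totient_lt e (by omega)
          omega
        refine (Finset.card_filter_le _ _).trans ((card_pf_le_log h1).trans ?_)
        refine Nat.log_mono_right ?_
        have h2 : e ≤ m := Nat.le_of_dvd (Nat.pos_of_ne_zero hm) (he3.trans (rad_dvd m))
        omega
    _ = ((rad m).divisors.erase 1).card * Nat.log 2 N := by
        rw [Finset.sum_const, smul_eq_mul]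
    _ ≤ 2 ^ m.primeFactors.card * Nat.log 2 N := by
        refine Nat.mul_le_mul_right _ ?_
        exact (Finset.card_erase_le).trans (card_divisors_rad m)

/-- The first case. -/
theorem fibre_one (m y X L : ℕ) (hy : 0 < y) (hX : y ≤ X) (hL : (Lset m y).card ≤ L)
    (S : Finset ℕ)
    (hS : ∀ P ∈ S, P ≤ X ∧ ∃ ℓ : ℕ, ℓ.Prime ∧ y < ℓ ∧
      ℓ ∣ P * (rad m - Nat.totient (rad m)) + Nat.totient (rad m) ∧
      ¬ ℓ ∣ rad m - Nat.totient (rad m) ∧ ∃ e, e ∣ rad m ∧ e ≠ 1 ∧ ℓ ∣ e - Nat.totient e) :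
    (S.card : ℝ) ≤ L * (2 * X / y) := by
  set D := rad m - Nat.totient (rad m) with hD
  set c := Nat.totient (rad m) with hc
  have h1 : S ⊆ ((Lset m y).filter (fun ℓ => Nat.Coprime ℓ D)).biUnion
      (fun ℓ => (range (X + 1)).filter (fun P => ℓ ∣ P * D + c)) := by
    intro P hP
    obtain ⟨h2, ℓ, hℓ, hyℓ, h3, h4, e, he, he1, h5⟩ := hS P hP
    have he0 : e ≠ 0 := by
      rintro rfl
      exact rad_ne_zero m (Nat.eq_zero_of_zero_dvd he)
    refine Finset.mem_biUnion.2 ⟨ℓ, Finset.mem_filter.2 ⟨?_,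
      (Nat.Prime.coprime_iff_not_dvd hℓ).2 h4⟩,
      Finset.mem_filter.2 ⟨Finset.mem_range.2 (by omega), h3⟩⟩
    refine Finset.mem_biUnion.2 ⟨e, Finset.mem_erase.2 ⟨he1,
      Nat.mem_divisors.2 ⟨he, rad_ne_zero m⟩⟩, Finset.mem_filter.2
      ⟨Nat.mem_primeFactors.2 ⟨hℓ, h5, ?_⟩, hyℓ⟩⟩
    have := Nat.totient_lt e (by omega)
    omega
  have hy0 : (0 : ℝ) < y := by exact_mod_cast hy
  have hX' : (y : ℝ) ≤ X := by exact_mod_cast hX
  calc (S.card : ℝ) ≤ ((((Lset m y).filter (fun ℓ => Nat.Coprime ℓ D)).biUnion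
      (fun ℓ => (range (X + 1)).filter (fun P => ℓ ∣ P * D + c))).card : ℝ) := by
        exact_mod_cast Finset.card_le_card h1
    _ ≤ ∑ ℓ ∈ (Lset m y).filter (fun ℓ => Nat.Coprime ℓ D),
        (((range (X + 1)).filter (fun P => ℓ ∣ P * D + c)).card : ℝ) := by
        exact_mod_cast Finset.card_biUnion_le
    _ ≤ ∑ ℓ ∈ (Lset m y).filter (fun ℓ => Nat.Coprime ℓ D), (2 * X / y : ℝ) := by
        refine Finset.sum_le_sum fun ℓ hℓ => ?_
        obtain ⟨h2, h3⟩ := Finset.mem_filter.1 hℓ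
        obtain ⟨e, _, h4⟩ := Finset.mem_biUnion.1 h2
        have h5 : y < ℓ := (Finset.mem_filter.1 h4).2
        have h6 := card_lin (X := X) (c := c) (by omega : 0 < ℓ) h3
        have h7 : X / ℓ ≤ X / y := Nat.div_le_div_left h5.le hy
        have h8 : ((X / y : ℕ) : ℝ) ≤ X / y := Nat.cast_div_le
        have h9 : (1 : ℝ) ≤ X / y := by rwa [le_div_iff₀ hy0, one_mul]
        have h10 : (((range (X + 1)).filter (fun P => ℓ ∣ P * D + c)).card : ℝ) ≤
            ((X / y : ℕ) : ℝ) + 1 := by exact_mod_cast h6.trans (by omega)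
        have h11 : (2 * X / y : ℝ) = X / y + X / y := by ring
        rw [h11]
        linarith
    _ = (((Lset m y).filter (fun ℓ => Nat.Coprime ℓ D)).card : ℝ) * (2 * X / y) := by
        rw [Finset.sum_const, nsmul_eq_mul]
    _ ≤ L * (2 * X / y) := by
        refine mul_le_mul_of_nonneg_right ?_ (by positivity)
        exact_mod_cast (Finset.card_filter_le _ _).trans hL

/-- A divisor of a smooth number in a given range. -/
theorem exists_divisor {M z y : ℕ} (hM : z < M) (hz : 0 < z)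
    (hy : ∀ p, p.Prime → p ∣ M → p ≤ y) : ∃ g, g ∣ M ∧ g ≤ z ∧ z < g * y := by
  have hM0 : M ≠ 0 := by omega
  have hne : (M.divisors.filter (· ≤ z)).Nonempty :=
    ⟨1, Finset.mem_filter.2 ⟨Nat.one_mem_divisors.2 hM0, hz⟩⟩
  set g := (M.divisors.filter (· ≤ z)).max' hne with hg
  have h1 := Finset.mem_filter.1 (Finset.max'_mem _ hne)
  rw [← hg] at h1
  have h2 := Nat.dvd_of_mem_divisors h1.1
  refine ⟨g, h2, h1.2, ?_⟩
  by_contra hcon
  push Not at hcon
  obtain ⟨q, hq⟩ := h2
  have hg0 : 0 < g := by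
    rcases Nat.eq_zero_or_pos g with h | h
    · rw [h, zero_mul] at hq
      exact absurd hq hM0
    · exact h
  have hq1 : q ≠ 1 := by
    rintro rfl
    have := h1.2
    omega
  obtain ⟨p, hp, hpq⟩ := Nat.exists_prime_and_dvd hq1
  have hpM : g * p ∣ M := by
    rw [hq]
    exact Nat.mul_dvd_mul_left g hpq
  have hpy := hy p hp ((dvd_mul_left p g).trans hpM)
  have h3 : g * p ≤ z := (Nat.mul_le_mul_left g hpy).trans hcon
  have h4 : g * p ≤ g := by
    rw [hg]
    exact Finset.le_max' _ _ (Finset.mem_filter.2 ⟨Nat.mem_divisors.2 ⟨hpM, hM0⟩, h3⟩)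
  have := hp.two_le
  nlinarith

/-- The second case. -/
theorem fibre_two (m y z X k : ℕ) (hm : 2 ≤ m) (hk : 1 ≤ k) (hy : y = 2 ^ (2 * k))
    (hz : z = y ^ (2 * k)) (hX : z ≤ X) (S : Finset ℕ)
    (hS : ∀ P ∈ S, P ≤ X ∧ z < P ∧ ∀ ℓ : ℕ, ℓ.Prime →
      ℓ ∣ P * (rad m - Nat.totient (rad m)) + Nat.totient (rad m) → ℓ ≤ y) :
    (S.card : ℝ) ≤ 2 * X * ((2 / 3) ^ (2 * k) * (Real.exp 30 * ((2 * k : ℕ) : ℝ) ^ 24)) := by
  set D := rad m - Nat.totient (rad m) with hD
  set c := Nat.totient (rad m) with hc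
  have hr2 := two_le_rad hm
  have hD0 : 0 < D := by
    have := Nat.totient_lt (rad m) (by omega)
    omega
  have hc0 : 0 < c := Nat.totient_pos.2 (by omega)
  set H := Nat.gcd D c with hH
  have hH0 : 0 < H := Nat.gcd_pos_of_pos_left _ hD0
  obtain ⟨D', c', hcop, hD', hc'⟩ := Nat.exists_coprime D c
  rw [← hH] at hD' hc'
  have hD'0 : 0 < D' := by
    rcases Nat.eq_zero_or_pos D' with h | h
    · rw [h, zero_mul] at hD'
      omega
    · exact h
  have hy0 : 0 < y := by rw [hy]; positivity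
  have hz0 : 0 < z := by rw [hz]; positivity
  classical
  set G := (Ioc 0 z).filter (fun g => z < g * y ∧ (∀ p, p.Prime → p ∣ g → p ≤ y) ∧
    Nat.Coprime g D') with hG
  have h1 : S ⊆ G.biUnion (fun g => (range (X + 1)).filter (fun P => g ∣ P * D' + c')) := by
    intro P hP
    obtain ⟨h2, h3, h4⟩ := hS P hP
    have h5 : P * D + c = H * (P * D' + c') := by
      conv_lhs => rw [hD', hc']
      ring
    have h6 : z < P * D' + c' := by nlinarith
    obtain ⟨g, hg1, hg2, hg3⟩ := exists_divisor h6 hz0 (fun p hp hpd => h4 p hp (by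
      rw [h5]
      exact dvd_mul_of_dvd_right hpd H))
    refine Finset.mem_biUnion.2 ⟨g, Finset.mem_filter.2 ⟨Finset.mem_Ioc.2 ⟨?_, hg2⟩, hg3,
      fun p hp hpg => h4 p hp (by
        rw [h5]
        exact dvd_mul_of_dvd_right (hpg.trans hg1) H), ?_⟩,
      Finset.mem_filter.2 ⟨Finset.mem_range.2 (by omega), hg1⟩⟩
    · rcases Nat.eq_zero_or_pos g with h | h
      · rw [h, zero_mul] at hg3
        omega
      · exact h
    · have h7 : Nat.Coprime (P * D' + c') D' := by
        rw [Nat.coprime_mul_right_add_left]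
        exact hcop.symm
      exact h7.coprime_dvd_left hg1
  have h8 : ∑ g ∈ G, (1 : ℝ) / g ≤
      (2 / 3) ^ (2 * k) * (Real.exp 30 * ((2 * k : ℕ) : ℝ) ^ 24) := by
    refine tail y (2 * k) (2 * k) (by omega) hy.le G ?_
    intro g hg
    obtain ⟨h2, h3, h4, h5⟩ := Finset.mem_filter.1 hg
    have hg0 : g ≠ 0 := by
      have := (Finset.mem_Ioc.1 h2).1
      omega
    refine ⟨hg0, h4, ?_⟩
    have h6 := le_pow_Om hg0 h4
    have h7 : y ^ (2 * k) < y ^ (Om g + 1) := by
      rw [← hz, pow_succ]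
      exact lt_of_lt_of_le h3 (Nat.mul_le_mul_right y h6)
    have h9 : 1 < y := by
      rw [hy]
      exact Nat.one_lt_two_pow (by omega)
    have := (Nat.pow_lt_pow_iff_right h9).1 h7
    omega
  calc (S.card : ℝ) ≤ ((G.biUnion
      (fun g => (range (X + 1)).filter (fun P => g ∣ P * D' + c'))).card : ℝ) := by
        exact_mod_cast Finset.card_le_card h1
    _ ≤ ∑ g ∈ G, (((range (X + 1)).filter (fun P => g ∣ P * D' + c')).card : ℝ) := by
        exact_mod_cast Finset.card_biUnion_le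
    _ ≤ ∑ g ∈ G, (2 * X) * ((1 : ℝ) / g) := by
        refine Finset.sum_le_sum fun g hg => ?_
        obtain ⟨h2, h3, h4, h5⟩ := Finset.mem_filter.1 hg
        have h6 := Finset.mem_Ioc.1 h2
        have h7 := card_lin (X := X) (c := c') h6.1 h5
        have hg0 : (0 : ℝ) < g := by exact_mod_cast h6.1
        have h8 : ((X / g : ℕ) : ℝ) ≤ X / g := Nat.cast_div_le
        have h9 : (1 : ℝ) ≤ X / g := by
          rw [le_div_iff₀ hg0, one_mul]
          exact_mod_cast h6.2.trans hX
        have h10 : (((range (X + 1)).filter (fun P => g ∣ P * D' + c')).card : ℝ) ≤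
            ((X / g : ℕ) : ℝ) + 1 := by exact_mod_cast h7
        have h11 : (2 * X) * ((1 : ℝ) / g) = X / g + X / g := by ring
        rw [h11]
        linarith
    _ = 2 * X * ∑ g ∈ G, (1 : ℝ) / g := by rw [Finset.mul_sum]
    _ ≤ _ := mul_le_mul_of_nonneg_left h8 (by positivity)

end H19AB
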