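import Pool.Agent.H19AB.Bound

/-!
# The exceptional set is small
-/

namespace H19AB

open Finset Filter
open scoped BigOperators Topology

/-- The constant. -/
private noncomputable def CC : ℝ := 500 + 30 * 4 ^ 24 * Real.exp 30

private theorem poly (k : ℕ) (hk : 1 ≤ k) (h l : ℝ) (h0 : 0 ≤ h) (l0 : 0 ≤ l)
    (hh : h ≤ 13 * ((k : ℝ) + 1) ^ 3) (hl : l ≤ 16 * ((k : ℝ) + 1) ^ 3) :
    ((1 / 2 ^ k + (2 / 3) ^ (2 * k) * (Real.exp 30 * ((4 * k ^ 2 : ℕ) : ℝ) ^ 24)) +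
      1 / 2 ^ k + h / 2 ^ k + h / 2 ^ k + h * (2 * l / 2 ^ k +
      2 * ((2 / 3) ^ (2 * k) * (Real.exp 30 * ((2 * k : ℕ) : ℝ) ^ 24)))) ≤
      CC * ((k : ℝ) + 1) ^ 51 / 2 ^ k := by
  have hk0 : (1 : ℝ) ≤ k := by exact_mod_cast hk
  set u : ℝ := (k : ℝ) + 1 with hu
  have hu1 : (1 : ℝ) ≤ u := by rw [hu]; linarith
  have hE : 0 < Real.exp 30 := Real.exp_pos _
  have h23 : ((2 : ℝ) / 3) ^ (2 * k) ≤ 1 / 2 ^ k := by
    rw [pow_mul, ← one_div_pow]
    refine pow_le_pow_left₀ (by positivity) ?_ k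
    norm_num
  have h2k : (0 : ℝ) < 2 ^ k := by positivity
  have e1 : ((4 * k ^ 2 : ℕ) : ℝ) ^ 24 ≤ 4 ^ 24 * u ^ 48 := by
    have : ((4 * k ^ 2 : ℕ) : ℝ) ≤ 4 * u ^ 2 := by
      push_cast
      have : (k : ℝ) ^ 2 ≤ u ^ 2 := pow_le_pow_left₀ (by linarith) (by rw [hu]; linarith) 2
      linarith
    calc ((4 * k ^ 2 : ℕ) : ℝ) ^ 24 ≤ (4 * u ^ 2) ^ 24 := pow_le_pow_left₀ (by positivity) this 24
      _ = 4 ^ 24 * u ^ 48 := by rw [mul_pow, ← pow_mul]
  have e2 : ((2 * k : ℕ) : ℝ) ^ 24 ≤ 4 ^ 24 * u ^ 24 := by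
    have : ((2 * k : ℕ) : ℝ) ≤ 4 * u := by
      push_cast
      rw [hu]
      linarith
    calc ((2 * k : ℕ) : ℝ) ^ 24 ≤ (4 * u) ^ 24 := pow_le_pow_left₀ (by positivity) this 24
      _ = 4 ^ 24 * u ^ 24 := by rw [mul_pow]
  have p3 : u ^ 3 ≤ u ^ 51 := pow_le_pow_right₀ hu1 (by norm_num)
  have p6 : u ^ 6 ≤ u ^ 51 := pow_le_pow_right₀ hu1 (by norm_num)
  have p27 : u ^ 27 ≤ u ^ 51 := pow_le_pow_right₀ hu1 (by norm_num)
  have p48 : u ^ 48 ≤ u ^ 51 := pow_le_pow_right₀ hu1 (by norm_num)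
  have p0 : 1 ≤ u ^ 51 := one_le_pow₀ hu1
  have q1 : (2 / 3 : ℝ) ^ (2 * k) * (Real.exp 30 * ((4 * k ^ 2 : ℕ) : ℝ) ^ 24) ≤
      1 / 2 ^ k * (Real.exp 30 * (4 ^ 24 * u ^ 51)) := by
    refine mul_le_mul h23 (mul_le_mul_of_nonneg_left ?_ hE.le) (by positivity) (by positivity)
    exact e1.trans (mul_le_mul_of_nonneg_left p48 (by positivity))
  have q2 : (2 / 3 : ℝ) ^ (2 * k) * (Real.exp 30 * ((2 * k : ℕ) : ℝ) ^ 24) ≤
      1 / 2 ^ k * (Real.exp 30 * (4 ^ 24 * u ^ 24)) := by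
    refine mul_le_mul h23 (mul_le_mul_of_nonneg_left e2 hE.le) (by positivity) (by positivity)
  have q3 : h * (2 * l / 2 ^ k +
      2 * ((2 / 3 : ℝ) ^ (2 * k) * (Real.exp 30 * ((2 * k : ℕ) : ℝ) ^ 24))) ≤
      1 / 2 ^ k * (416 * u ^ 51 + 26 * (Real.exp 30 * 4 ^ 24 * u ^ 51)) := by
    have r1 : 2 * l / 2 ^ k + 2 * ((2 / 3 : ℝ) ^ (2 * k) *
        (Real.exp 30 * ((2 * k : ℕ) : ℝ) ^ 24)) ≤
        1 / 2 ^ k * (32 * u ^ 3 + 2 * (Real.exp 30 * (4 ^ 24 * u ^ 24))) := by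
      have : 2 * l / 2 ^ k = 1 / 2 ^ k * (2 * l) := by ring
      rw [this, mul_add]
      refine add_le_add (mul_le_mul_of_nonneg_left (by linarith) (by positivity)) ?_
      linarith
    calc h * (2 * l / 2 ^ k + 2 * ((2 / 3 : ℝ) ^ (2 * k) *
          (Real.exp 30 * ((2 * k : ℕ) : ℝ) ^ 24)))
        ≤ (13 * u ^ 3) * (1 / 2 ^ k * (32 * u ^ 3 + 2 * (Real.exp 30 * (4 ^ 24 * u ^ 24)))) :=
          mul_le_mul hh r1 (by positivity) (by positivity)
      _ = 1 / 2 ^ k * (416 * u ^ 6 + 26 * (Real.exp 30 * 4 ^ 24 * u ^ 27)) := by ring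
      _ ≤ _ := by
          refine mul_le_mul_of_nonneg_left ?_ (by positivity)
          refine add_le_add (by linarith) ?_
          refine mul_le_mul_of_nonneg_left ?_ (by norm_num)
          exact mul_le_mul_of_nonneg_left p27 (by positivity)
  have q4 : h / 2 ^ k ≤ 1 / 2 ^ k * (13 * u ^ 51) := by
    rw [div_eq_mul_one_div, mul_comm]
    exact mul_le_mul_of_nonneg_left (by linarith) (by positivity)
  have q5 : (1 : ℝ) / 2 ^ k ≤ 1 / 2 ^ k * u ^ 51 := by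
    exact le_mul_of_one_le_right (by positivity) p0
  calc _ ≤ (1 / 2 ^ k * u ^ 51 + 1 / 2 ^ k * (Real.exp 30 * (4 ^ 24 * u ^ 51))) +
        1 / 2 ^ k * u ^ 51 + 1 / 2 ^ k * (13 * u ^ 51) + 1 / 2 ^ k * (13 * u ^ 51) +
        1 / 2 ^ k * (416 * u ^ 51 + 26 * (Real.exp 30 * 4 ^ 24 * u ^ 51)) := by linarith
    _ = 1 / 2 ^ k * u ^ 51 * (444 + 27 * 4 ^ 24 * Real.exp 30) := by ring
    _ ≤ 1 / 2 ^ k * u ^ 51 * CC := by
        refine mul_le_mul_of_nonneg_left ?_ (by positivity)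
        unfold CC
        have : (0 : ℝ) < 4 ^ 24 * Real.exp 30 := by positivity
        linarith
    _ = _ := by ring

private theorem evk : ∀ᶠ n : ℕ in atTop,
    2 * CC * ((n : ℝ) ^ 51 * (Real.exp (23 / 100) / 2) ^ n) ≤ 1 := by
  have hr : |Real.exp (23 / 100) / 2| < 1 := by
    rw [abs_of_pos (by positivity), div_lt_one (by norm_num)]
    have h1 : Real.exp (23 / 100) < Real.exp (Real.log 2) := by
      apply Real.exp_lt_exp.2
      have := Real.log_two_gt_d9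
      linarith
    rwa [Real.exp_log (by norm_num)] at h1
  have h1 := (tendsto_pow_const_mul_const_pow_of_abs_lt_one 51 hr).const_mul (2 * CC)
  rw [mul_zero] at h1
  exact (h1.eventually_lt_const one_pos).mono fun n hn => hn.le

private theorem small (k : ℕ) (hk : 7 ≤ k) : 16 * (k + 1) ^ 3 ≤ 4 ^ k := by
  induction k, hk using Nat.le_induction with
  | base => norm_num
  | succ k hk ih =>
    have h1 : (k + 1 + 1) ^ 3 ≤ 4 * (k + 1) ^ 3 := by nlinarith [sq_nonneg k]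
    calc 16 * (k + 1 + 1) ^ 3 ≤ 4 * (16 * (k + 1) ^ 3) := by linarith
      _ ≤ 4 * 4 ^ k := Nat.mul_le_mul_left 4 ih
      _ = 4 ^ (k + 1) := by ring

/-- The exceptional set has at most `N exp (-(log N)^(1/3) / 10)` elements up to `N`, for all
large `N`. -/
theorem exceptional : ∀ᶠ N : ℕ in atTop,
    (Set.ncard {n : ℕ | n ≤ N ∧ 2 ≤ n.primeFactors.card ∧ ∃ j : ℤ, a n = j} : ℝ) ≤
      N * Real.exp (-(Real.log N) ^ ((1 : ℝ) / 3) / 10) := by
  obtain ⟨n0, hn0⟩ := Filter.eventually_atTop.1 evk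
  have hl4 : 0 < Real.log 4 := Real.log_pos (by norm_num)
  have hl4' : Real.log 4 < 1.39 := by
    have h4 : Real.log 4 = 2 * Real.log 2 := by
      rw [show (4 : ℝ) = 2 ^ 2 by norm_num, Real.log_pow]
      push_cast
      ring
    have := Real.log_two_lt_d9
    rw [h4]
    norm_num at this ⊢
    linarith
  -- the scale
  have hx : Tendsto (fun N : ℕ => (Real.log N / (8 * Real.log 4)) ^ ((1 : ℝ) / 3)) atTop atTop := by
    refine (tendsto_rpow_atTop (by norm_num)).comp ?_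
    exact (Real.tendsto_log_atTop.comp tendsto_natCast_atTop_atTop).atTop_div_const (by positivity)
  have hev : ∀ᶠ N : ℕ in atTop,
      ((n0 + 8 : ℕ) : ℝ) ≤ (Real.log N / (8 * Real.log 4)) ^ ((1 : ℝ) / 3) :=
    hx.eventually_ge_atTop _
  filter_upwards [hev, Filter.eventually_ge_atTop 2] with N hN hN2
  set x : ℝ := (Real.log N / (8 * Real.log 4)) ^ ((1 : ℝ) / 3) with hxdef
  have hNR : (2 : ℝ) ≤ N := by exact_mod_cast hN2
  have hlogN : 0 < Real.log N := Real.log_pos (by linarith)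
  have hx0 : 0 < x := by
    have : (0 : ℝ) < ((n0 + 8 : ℕ) : ℝ) := by positivity
    linarith
  have hx3 : x ^ 3 = Real.log N / (8 * Real.log 4) := by
    rw [hxdef, ← Real.rpow_natCast, ← Real.rpow_mul (by positivity)]
    norm_num
  set k : ℕ := ⌊x⌋₊ with hkdef
  have hk1 : (k : ℝ) ≤ x := Nat.floor_le hx0.le
  have hk2 : x < k + 1 := Nat.lt_floor_add_one x
  have hk8 : n0 + 8 ≤ k := Nat.le_floor hN
  have hlogeq : Real.log N = 8 * Real.log 4 * x ^ 3 := by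
    rw [hx3]
    field_simp
  -- `4 ^ (8 k ^ 3) ≤ N < 4 ^ (8 (k+1)^3)`
  have hlow : 4 ^ (8 * k ^ 3) ≤ N := by
    have h1 : Real.log ((4 : ℝ) ^ (8 * k ^ 3)) ≤ Real.log N := by
      rw [Real.log_pow, hlogeq]
      push_cast
      have : (k : ℝ) ^ 3 ≤ x ^ 3 := pow_le_pow_left₀ (by positivity) hk1 3
      nlinarith
    have h2 := (Real.log_le_log_iff (by positivity) (by linarith)).1 h1
    exact_mod_cast h2
  have hup : N < 4 ^ (8 * (k + 1) ^ 3) := by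
    have h1 : Real.log N < Real.log ((4 : ℝ) ^ (8 * (k + 1) ^ 3)) := by
      rw [Real.log_pow, hlogeq]
      push_cast
      have : x ^ 3 < ((k : ℝ) + 1) ^ 3 := pow_lt_pow_left₀ hk2 hx0.le (by norm_num)
      nlinarith
    have h2 := (Real.log_lt_log_iff (by linarith) (by positivity)).1 h1
    exact_mod_cast h2
  have hlog2 : Nat.log 2 N < 16 * (k + 1) ^ 3 := by
    apply Nat.log_lt_of_lt_pow (by omega)
    have : 2 ^ (16 * (k + 1) ^ 3) = 4 ^ (8 * (k + 1) ^ 3) := by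
      rw [show (4 : ℕ) = 2 ^ 2 by norm_num, ← pow_mul]
      congr 1
      ring
    rw [this]
    exact hup
  classical
  set S : Finset ℕ := (Ioc 0 N).filter (fun n => 2 ≤ n.primeFactors.card ∧ ∃ j : ℤ, a n = j)
    with hS
  have hset : {n : ℕ | n ≤ N ∧ 2 ≤ n.primeFactors.card ∧ ∃ j : ℤ, a n = j} = ↑S := by
    ext n
    rw [hS]
    simp only [Set.mem_ofPred_eq, Finset.coe_filter, Finset.mem_Ioc]
    constructor
    · rintro ⟨h1, h2, h3⟩
      refine ⟨⟨?_, h1⟩, h2, h3⟩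
      rcases Nat.eq_zero_or_pos n with h | h
      · rw [h] at h2
        simp at h2
      · exact h
    · rintro ⟨⟨_, h1⟩, h2, h3⟩
      exact ⟨h1, h2, h3⟩
  rw [hset, Set.ncard_coe_finset]
  have hb := card_bad N k (by omega) hlow (hlog2.le.trans (small k (by omega))) S (fun n hn => by
    obtain ⟨h1, h2, h3⟩ := Finset.mem_filter.1 hn
    exact ⟨h1, h2, h3⟩)
  have hHH : HH N ≤ 13 * ((k : ℝ) + 1) ^ 3 := by
    have h1 := HH_le N
    have h2 : x ^ 3 ≤ ((k : ℝ) + 1) ^ 3 := pow_le_pow_left₀ hx0.le hk2.le 3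
    have h3 : (1 : ℝ) ≤ ((k : ℝ) + 1) ^ 3 := one_le_pow₀ (by linarith [Nat.cast_nonneg (α := ℝ) k])
    have h4 : Real.log N ≤ 12 * ((k : ℝ) + 1) ^ 3 := by
      rw [hlogeq]
      nlinarith [pow_pos hx0 3]
    linarith
  have hl' : (Nat.log 2 N : ℝ) ≤ 16 * ((k : ℝ) + 1) ^ 3 := by
    exact_mod_cast hlog2.le
  have hp := poly k (by omega) (HH N) (Nat.log 2 N) (HH_nonneg N) (by positivity) hHH hl'
  have hN0 : (0 : ℝ) ≤ N := by positivity
  refine hb.trans (mul_le_mul_of_nonneg_left (hp.trans ?_) hN0)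
  -- the final comparison
  have hkey := hn0 (k + 1) (by omega)
  have hexp : Real.exp (-(23 / 100) * ((k : ℝ) + 1)) ≤
      Real.exp (-(Real.log N) ^ ((1 : ℝ) / 3) / 10) := by
    apply Real.exp_le_exp.2
    have h1 : (Real.log N) ^ ((1 : ℝ) / 3) ≤ 23 / 10 * x := by
      have h2 : Real.log N ≤ (23 / 10 * x) ^ 3 := by
        rw [hlogeq]
        nlinarith [pow_pos hx0 3]
      calc (Real.log N) ^ ((1 : ℝ) / 3) ≤ ((23 / 10 * x) ^ 3) ^ ((1 : ℝ) / 3) :=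
            Real.rpow_le_rpow hlogN.le h2 (by norm_num)
        _ = 23 / 10 * x := by
            rw [← Real.rpow_natCast, ← Real.rpow_mul (by positivity)]
            norm_num
    nlinarith
  refine le_trans ?_ hexp
  have h2 : (Real.exp (23 / 100) / 2) ^ (k + 1) =
      Real.exp (23 / 100 * ((k : ℝ) + 1)) / (2 * 2 ^ k) := by
    rw [div_pow, ← Real.exp_nat_mul, pow_succ' (2 : ℝ)]
    congr 2
    push_cast
    ring
  rw [h2] at hkey
  push_cast at hkey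
  have h3 : Real.exp (-(23 / 100) * ((k : ℝ) + 1)) =
      (Real.exp (23 / 100 * ((k : ℝ) + 1)))⁻¹ := by
    rw [← Real.exp_neg]
    congr 1
    ring
  rw [h3]
  have hE : 0 < Real.exp (23 / 100 * ((k : ℝ) + 1)) := Real.exp_pos _
  rw [le_inv_comm₀ (by unfold CC; positivity) hE, ← one_div, le_div_iff₀ (by unfold CC; positivity)]
  calc Real.exp (23 / 100 * ((k : ℝ) + 1)) * (CC * ((k : ℝ) + 1) ^ 51 / 2 ^ k)
      = 2 * CC * (((k : ℝ) + 1) ^ 51 * (Real.exp (23 / 100 * ((k : ℝ) + 1)) / (2 * 2 ^ k))) := by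
        field_simp
    _ ≤ 1 := hkey

end H19AB
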