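import Pool.Agent.H19AB.Crit

/-!
# Integrality of `a (P * m)` forces shared prime divisors
-/

namespace H19AB

open Finset
open scoped BigOperators

theorem rad_mul_prime {P m : ℕ} (hP : P.Prime) (hPm : ¬ P ∣ m) (hm : m ≠ 0) :
    rad (P * m) = P * rad m := by
  unfold rad
  rw [Nat.primeFactors_mul hP.ne_zero hm, hP.primeFactors]
  rw [Finset.prod_union, Finset.prod_singleton]
  rw [Finset.disjoint_singleton_left]
  intro h
  exact hPm (Nat.dvd_of_mem_primeFactors h)

/-- A prime dividing `φ r` for squarefree `r` divides `p - 1` for a prime factor `p` of `r`. -/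
theorem dvd_tot_rad {ℓ m : ℕ} (hℓ : ℓ.Prime) (h : ℓ ∣ Nat.totient (rad m)) :
    ∃ p ∈ m.primeFactors, ℓ ∣ p - 1 := by
  have h1 := Nat.totient_mul_prod_primeFactors (rad m)
  rw [rad_pf] at h1
  have h4 : 0 < rad m := Nat.pos_of_ne_zero (rad_ne_zero m)
  have h5 : Nat.totient (rad m) = ∏ p ∈ m.primeFactors, (p - 1) := by
    apply Nat.eq_of_mul_eq_mul_right h4
    calc Nat.totient (rad m) * rad m = rad m * ∏ p ∈ m.primeFactors, (p - 1) := h1
      _ = _ := by ring
  rw [h5] at h
  exact (Prime.dvd_finsetProd_iff hℓ.prime _).1 h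

theorem shared {n P m y : ℕ} (hP : P.Prime) (hm : 2 ≤ m)
    (hlt : ∀ p ∈ m.primeFactors, p < P) (hn : n = P * m) (hΩ : Om n ≤ y)
    (hE : ∀ ℓ p : ℕ, ℓ.Prime → p.Prime → y < ℓ → ℓ ∣ p - 1 → ¬ ℓ * p ∣ n)
    (ha : ∃ k : ℤ, a n = k) (ℓ : ℕ) (hℓ : ℓ.Prime) (hy : y < ℓ)
    (hdiv : ℓ ∣ P * (rad m - Nat.totient (rad m)) + Nat.totient (rad m)) :
    ¬ ℓ ∣ rad m - Nat.totient (rad m) ∧
      ∃ e, e ∣ rad m ∧ e ≠ 1 ∧ ℓ ∣ e - Nat.totient e := by
  have hm0 : m ≠ 0 := by omega
  have hPm : ¬ P ∣ m := fun h => lt_irrefl _ (hlt P (Nat.mem_primeFactors.2 ⟨hP, h, hm0⟩))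
  have hrad : rad n = P * rad m := by rw [hn, rad_mul_prime hP hPm hm0]
  set r := rad m with hr
  have hr2 : 2 ≤ r := two_le_rad hm
  have hrm : r ∣ m := rad_dvd m
  have hPr : ¬ P ∣ r := fun h => hPm (h.trans hrm)
  have hcop : Nat.Coprime P r := (Nat.Prime.coprime_iff_not_dvd hP).2 hPr
  have hφr : Nat.totient r ≤ r := Nat.totient_le r
  have hφrlt : Nat.totient r < r := Nat.totient_lt r (by omega)
  have hP1 : 1 ≤ P := hP.one_lt.le
  -- two primes dividing `n` with `ℓ ∣ p - 1` are impossible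
  have hbad : ∀ p : ℕ, p.Prime → p ∣ n → ℓ ∣ n → ¬ ℓ ∣ p - 1 := by
    intro p hp hpn hℓn h
    have hne : ℓ ≠ p := by
      rintro rfl
      have h1 : ℓ ≤ ℓ - 1 := Nat.le_of_dvd (by have := hℓ.two_le; omega) h
      have := hℓ.two_le
      omega
    exact hE ℓ p hℓ hp hy h
      (Nat.Coprime.mul_dvd_of_dvd_of_dvd ((Nat.coprime_primes hℓ hp).2 hne) hℓn hpn)
  have htot : Nat.totient (P * r) = (P - 1) * Nat.totient r := by
    rw [Nat.totient_mul hcop, Nat.totient_prime hP]
  have hDn : rad n - Nat.totient (rad n) = P * (r - Nat.totient r) + Nat.totient r := by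
    rw [hrad, htot]
    zify [hφr, Nat.mul_le_mul (Nat.sub_le P 1) hφr, hP1]
    ring
  -- `ℓ` does not divide `n`
  have hℓn : ¬ ℓ ∣ n := by
    intro h
    have h1 : ℓ ∣ P * r := by
      rw [hn] at h
      rcases (Nat.Prime.dvd_mul hℓ).1 h with h2 | h2
      · exact dvd_mul_of_dvd_left h2 _
      · exact dvd_mul_of_dvd_right
          (Finset.dvd_prod_of_mem _ (Nat.mem_primeFactors.2 ⟨hℓ, h2, hm0⟩)) _
    have h2 : ℓ ∣ Nat.totient (P * r) := by
      have h3 : Nat.totient (P * r) ≤ P * r := Nat.totient_le _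
      have h4 : ℓ ∣ P * r - Nat.totient (P * r) := by
        rw [← hrad, hDn]
        exact hdiv
      have h5 := Nat.dvd_sub h1 h4
      rwa [Nat.sub_sub_self h3] at h5
    rw [htot] at h2
    rcases (Nat.Prime.dvd_mul hℓ).1 h2 with h3 | h3
    · exact hbad P hP (by rw [hn]; exact dvd_mul_right _ _) h h3
    · obtain ⟨p, hp, h4⟩ := dvd_tot_rad hℓ h3
      refine hbad p (Nat.prime_of_mem_primeFactors hp) ?_ h h4
      rw [hn]
      exact dvd_mul_of_dvd_right (Nat.dvd_of_mem_primeFactors hp) _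
  refine ⟨?_, ?_⟩
  · intro h
    have h1 : ℓ ∣ Nat.totient r := (Nat.dvd_add_right (dvd_mul_of_dvd_right h P)).1 hdiv
    have h2 : ℓ ∣ r := by
      have := (Nat.dvd_add_right h).2 h1
      rwa [Nat.sub_add_cancel hφr] at this
    exact hℓn (by rw [hn]; exact dvd_mul_of_dvd_right (h2.trans hrm) _)
  · by_contra hcon
    push Not at hcon
    obtain ⟨k, hk⟩ := ha
    have hn2 : 2 ≤ n := by
      rw [hn]
      nlinarith [hP.two_le]
    refine crit hℓ hn2 hℓn (by omega) (by rw [hDn]; exact hdiv) ?_ k hk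
    intro e he he1 hen hℓe
    rw [hrad] at he hen
    have hℓPr : ¬ ℓ ∣ P * r := fun h => hℓn (by
      rw [hn]
      exact h.trans (Nat.mul_dvd_mul_left P hrm))
    by_cases hPe : P ∣ e
    · obtain ⟨f, rfl⟩ := hPe
      have hfr : f ∣ r := Nat.dvd_of_mul_dvd_mul_left hP.pos he
      obtain ⟨t, ht⟩ := hfr
      have hf0 : f ≠ 0 := by
        rintro rfl
        omega
      have ht0 : t ≠ 0 := by
        rintro rfl
        omega
      have ht1 : t ≠ 1 := by
        rintro rfl
        apply hen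
        rw [ht, mul_one]
      have hsq : Squarefree r := rad_sqf m
      have hft : Nat.Coprime f t := by
        rw [ht] at hsq
        exact (Nat.squarefree_mul_iff.1 hsq).1
      have hPt : Nat.Coprime P t := hcop.coprime_dvd_right ⟨f, by rw [ht]; ring⟩
      have h1 : Nat.totient (P * r) = Nat.totient (P * f) * Nat.totient t := by
        rw [ht, ← mul_assoc, Nat.totient_mul (Nat.Coprime.mul_left hPt hft)]
      have h2 : P * r - Nat.totient (P * r) =
          (P * f) * (t - Nat.totient t) + (P * f - Nat.totient (P * f)) * Nat.totient t := by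
        rw [h1]
        have e1 : Nat.totient t ≤ t := Nat.totient_le t
        have e2 : Nat.totient (P * f) ≤ P * f := Nat.totient_le _
        have e3 : Nat.totient (P * f) * Nat.totient t ≤ P * r := by
          rw [ht, ← mul_assoc]
          exact Nat.mul_le_mul e2 e1
        zify [e1, e2, e3]
        rw [ht]
        push_cast
        ring
      have h3 : ℓ ∣ (P * f) * (t - Nat.totient t) := by
        have h4 : ℓ ∣ P * r - Nat.totient (P * r) := by
          rw [← hrad, hDn]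
          exact hdiv
        rw [h2] at h4
        exact (Nat.dvd_add_left (dvd_mul_of_dvd_left hℓe _)).1 h4
      rcases (Nat.Prime.dvd_mul hℓ).1 h3 with h4 | h4
      · exact hℓPr (h4.trans ⟨t, by rw [ht]; ring⟩)
      · exact hcon t ⟨f, by rw [ht]; ring⟩ ht1 h4
    · have : Nat.Coprime e P := ((Nat.Prime.coprime_iff_not_dvd hP).2 hPe).symm
      exact hcon e (this.dvd_of_dvd_mul_left he) he1 hℓe

end H19AB
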