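import Pool.Agent.H19AB.Defs

/-!
# The recursion for `a n`
-/

namespace H19AB

open Finset
open scoped BigOperators

private def cnt (n d t : ℕ) : ℕ :=
  ((univ : Finset (Fin t → Fin n)).filter (fun r => ¬ d ∣ ∏ i, (r i : ℕ))).card

private theorem dvd_mul_iff' {d s y : ℕ} (hd : 0 < d) :
    d ∣ s * y ↔ d / Nat.gcd d s ∣ y := by
  have hg : 0 < Nat.gcd d s := Nat.gcd_pos_of_pos_left _ hd
  obtain ⟨d', s', hc, h1, h2⟩ := Nat.exists_coprime d s
  have e1 : d / Nat.gcd d s = d' := by
    conv_lhs => rw [h1]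
    rw [← h1]
    exact Nat.div_eq_of_eq_mul_left hg h1
  rw [e1]
  constructor
  · intro h
    have h3 : Nat.gcd d s * d' ∣ Nat.gcd d s * (s' * y) := by
      have : s * y = Nat.gcd d s * (s' * y) := by
        conv_lhs => rw [h2]
        ring
      rw [← this, mul_comm, ← h1]
      exact h
    exact hc.dvd_of_dvd_mul_left (Nat.dvd_of_mul_dvd_mul_left hg h3)
  · rintro ⟨z, rfl⟩
    refine ⟨s' * z, ?_⟩
    calc s * (d' * z) = (s' * Nat.gcd d s) * (d' * z) := by rw [← h2]
      _ = (d' * Nat.gcd d s) * (s' * z) := by ring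
      _ = d * (s' * z) := by rw [← h1]

private theorem cnt_succ (n d t : ℕ) (hd : 0 < d) :
    cnt n d (t + 1) = ∑ s ∈ range n, cnt n (d / Nat.gcd d s) t := by
  unfold cnt
  rw [Finset.card_filter, ← Fin.sum_univ_eq_sum_range
    (fun s => ((univ : Finset (Fin t → Fin n)).filter
      (fun r => ¬ d / Nat.gcd d s ∣ ∏ i, (r i : ℕ))).card) n]
  rw [← Equiv.sum_comp (Fin.consEquiv (fun _ : Fin (t + 1) => Fin n)), Fintype.sum_prod_type]
  refine Finset.sum_congr rfl fun s _ => ?_
  rw [Finset.card_filter]
  refine Finset.sum_congr rfl fun r _ => ?_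
  have h1 : ∏ i, ((Fin.consEquiv (fun _ : Fin (t + 1) => Fin n)) (s, r) i : ℕ) =
      (s : ℕ) * ∏ i, (r i : ℕ) := by
    rw [Fin.prod_univ_succ]
    simp [Fin.consEquiv]
  rw [h1]
  simp only [dvd_mul_iff' hd]

private theorem cnt_zero (n d : ℕ) : cnt n d 0 = if d ∣ 1 then 0 else 1 := by
  unfold cnt
  by_cases h : d ∣ 1
  · rw [if_pos h]
    simp only [Finset.univ_unique, Finset.card_eq_zero]
    apply Finset.filter_eq_empty_iff.2
    intro r _
    simp only [Finset.univ_eq_empty, Finset.prod_empty, not_not]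
    exact h
  · rw [if_neg h]
    have : (univ : Finset (Fin 0 → Fin n)).filter (fun r => ¬ d ∣ ∏ i, (r i : ℕ)) = univ := by
      apply Finset.filter_eq_self.2
      intro r _
      simpa using h
    rw [this]
    simp

private noncomputable def rho (n d t : ℕ) : ℝ := (cnt n d t : ℝ) / (n : ℝ) ^ t

private theorem rho_succ (n d t : ℕ) (hd : 0 < d) :
    rho n d (t + 1) = (∑ s ∈ range n, rho n (d / Nat.gcd d s) t) / n := by
  unfold rho
  rw [cnt_succ n d t hd, Nat.cast_sum, ← Finset.sum_div, div_div, pow_succ]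

private theorem sum_periodic (d k : ℕ) (f : ℕ → ℝ) :
    ∑ s ∈ range (d * k), f (Nat.gcd d s) = k * ∑ s ∈ range d, f (Nat.gcd d s) := by
  induction k with
  | zero => simp
  | succ k ih =>
    rw [mul_add, mul_one, Finset.sum_range_add, ih]
    have : ∑ x ∈ range d, f (Nat.gcd d (d * k + x)) = ∑ s ∈ range d, f (Nat.gcd d s) := by
      refine Finset.sum_congr rfl fun x _ => ?_
      have h : Nat.gcd d (d * k + x) = Nat.gcd d x := by
        simp [Nat.gcd_mul_left_add_right]
      rw [h]
    rw [this]
    push_cast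
    ring

private theorem rho_eq (t : ℕ) : ∀ n d : ℕ, 0 < n → d ∣ n → rho n d t = rho d d t := by
  induction t with
  | zero =>
    intro n d _ _
    simp [rho, cnt_zero]
  | succ t ih =>
    intro n d hn hdn
    obtain ⟨k, rfl⟩ := hdn
    have hd : 0 < d := by
      rcases Nat.eq_zero_or_pos d with h | h
      · simp [h] at hn
      · exact h
    have hk : 0 < k := by
      rcases Nat.eq_zero_or_pos k with h | h
      · simp [h] at hn
      · exact h
    rw [rho_succ _ _ _ hd, rho_succ _ _ _ hd]
    have h1 : ∀ s, rho (d * k) (d / Nat.gcd d s) t =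
        rho (d / Nat.gcd d s) (d / Nat.gcd d s) t := fun s =>
      ih _ _ hn (dvd_mul_of_dvd_left (Nat.div_dvd_of_dvd (Nat.gcd_dvd_left d s)) k)
    have h2 : ∀ s, rho d (d / Nat.gcd d s) t =
        rho (d / Nat.gcd d s) (d / Nat.gcd d s) t := fun s =>
      ih _ _ hd (Nat.div_dvd_of_dvd (Nat.gcd_dvd_left d s))
    simp only [h1, h2]
    rw [sum_periodic d k (fun g => rho (d / g) (d / g) t)]
    have hk' : (k : ℝ) ≠ 0 := by positivity
    have hd' : (d : ℝ) ≠ 0 := by positivity
    push_cast
    field_simp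

private theorem surv_eq_rho (n t : ℕ) (hn : 0 < n) : surv n t = rho n n t := by
  have : NeZero n := ⟨hn.ne'⟩
  unfold surv rho cnt
  congr 1
  rw [← Fintype.card_subtype, ← Nat.card_eq_fintype_card]
  congr 1
  let e : (Fin t → ZMod n) ≃ (Fin t → Fin n) :=
    Equiv.arrowCongr (Equiv.refl _)
      { toFun := fun x => ⟨x.val, ZMod.val_lt x⟩
        invFun := fun x => ((x : ℕ) : ZMod n)
        left_inv := fun x => by simp
        right_inv := fun x => by
          ext
          simp [ZMod.val_natCast, Nat.mod_eq_of_lt x.2] }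
  refine Nat.card_congr (Equiv.subtypeEquiv e ?_)
  intro r
  have h1 : ∏ i, r i = ((∏ i, ((e r) i : ℕ) : ℕ) : ZMod n) := by
    rw [Nat.cast_prod]
    refine Finset.prod_congr rfl fun i _ => ?_
    simp [e]
  rw [h1, Ne, ZMod.natCast_eq_zero_iff]

theorem surv_zero (n : ℕ) (hn : 2 ≤ n) : surv n 0 = 1 := by
  rw [surv_eq_rho n 0 (by omega), rho, cnt_zero, if_neg]
  · simp
  · intro h
    have := Nat.le_of_dvd one_pos h
    omega

theorem surv_one (t : ℕ) : surv 1 t = 0 := by
  rw [surv_eq_rho 1 t one_pos, rho, cnt]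
  simp

theorem surv_nonneg (n t : ℕ) : 0 ≤ surv n t := by
  unfold surv
  positivity

theorem surv_succ (n t : ℕ) (hn : 0 < n) :
    surv n (t + 1) = (∑ d ∈ n.divisors, (Nat.totient d : ℝ) * surv d t) / n := by
  rw [surv_eq_rho n _ hn, rho_succ n n t hn]
  congr 1
  have h1 : ∀ s, rho n (n / Nat.gcd n s) t = surv (n / Nat.gcd n s) t := by
    intro s
    have h2 : n / Nat.gcd n s ∣ n := Nat.div_dvd_of_dvd (Nat.gcd_dvd_left n s)
    rw [rho_eq t n _ hn h2, surv_eq_rho _ _ (Nat.pos_of_dvd_of_pos h2 hn)]
  simp only [h1]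
  rw [← Nat.sum_div_divisors n (fun d => (Nat.totient d : ℝ) * surv d t)]
  have h3 : ∀ s ∈ range n, Nat.gcd n s ∈ n.divisors := fun s _ =>
    Nat.mem_divisors.2 ⟨Nat.gcd_dvd_left n s, hn.ne'⟩
  rw [← Finset.sum_fiberwise_of_maps_to h3]
  refine Finset.sum_congr rfl fun g hg => ?_
  have hgn := Nat.dvd_of_mem_divisors hg
  rw [Finset.sum_congr rfl (g := fun _ => surv (n / g) t)
    (fun s hs => by rw [(Finset.mem_filter.1 hs).2]), Finset.sum_const,
    Nat.totient_div_of_dvd hgn, nsmul_eq_mul]

private theorem psum_bound : ∀ n : ℕ, ∃ C : ℝ, ∀ T, ∑ t ∈ range T, surv n t ≤ C := by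
  intro n
  induction n using Nat.strong_induction_on with
  | _ n ih =>
    rcases Nat.lt_or_ge n 2 with hn | hn
    · interval_cases n
      · refine ⟨1, fun T => ?_⟩
        induction T with
        | zero => simp
        | succ T _ =>
          rw [Finset.sum_range_succ']
          have h1 : ∀ t ∈ range T, surv 0 (t + 1) = 0 := by
            intro t _
            simp [surv]
          rw [Finset.sum_eq_zero h1, zero_add]
          unfold surv
          rw [pow_zero, div_one]
          have : Nat.card {r : Fin 0 → ZMod 0 // ∏ i, r i ≠ 0} ≤ 1 := by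
            have : Subsingleton {r : Fin 0 → ZMod 0 // ∏ i, r i ≠ 0} := inferInstance
            exact Finite.card_le_one_iff_subsingleton.2 inferInstance
          exact_mod_cast this
      · refine ⟨0, fun T => ?_⟩
        rw [Finset.sum_eq_zero fun t _ => surv_one t]
    · choose! C hC using ih
      have hn0 : (0 : ℝ) < n := by positivity
      have hφ : Nat.totient n < n := Nat.totient_lt n (by omega)
      have hφ' : (Nat.totient n : ℝ) < n := by exact_mod_cast hφ
      set K : ℝ := ∑ d ∈ n.properDivisors, (Nat.totient d : ℝ) * C d with hK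
      refine ⟨((n : ℝ) + K) / (n - Nat.totient n), fun T => ?_⟩
      rw [le_div_iff₀ (by linarith)]
      have h1 : ∀ T, ∑ t ∈ range (T + 1), surv n t =
          1 + (∑ d ∈ n.divisors, (Nat.totient d : ℝ) * ∑ t ∈ range T, surv d t) / n := by
        intro T
        rw [Finset.sum_range_succ', surv_zero n hn, add_comm]
        congr 1
        rw [Finset.sum_congr rfl fun t _ => surv_succ n t (by omega), ← Finset.sum_div,
          Finset.sum_comm]
        congr 1
        refine Finset.sum_congr rfl fun d _ => ?_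
        rw [Finset.mul_sum]
      have h2 : ∑ t ∈ range T, surv n t ≤ ∑ t ∈ range (T + 1), surv n t := by
        rw [Finset.sum_range_succ]
        linarith [surv_nonneg n T]
      have h3 := h1 T
      rw [← Nat.insert_self_properDivisors (by omega : n ≠ 0),
        Finset.sum_insert Nat.self_notMem_properDivisors] at h3
      have h4 : ∑ d ∈ n.properDivisors, (Nat.totient d : ℝ) * ∑ t ∈ range T, surv d t ≤ K := by
        rw [hK]
        refine Finset.sum_le_sum fun d hd => ?_
        exact mul_le_mul_of_nonneg_left (hC d (Nat.mem_properDivisors.1 hd).2 T) (by positivity)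
      have h5 : (n : ℝ) * ∑ t ∈ range (T + 1), surv n t =
          n + ((Nat.totient n : ℝ) * ∑ t ∈ range T, surv n t +
            ∑ d ∈ n.properDivisors, (Nat.totient d : ℝ) * ∑ t ∈ range T, surv d t) := by
        rw [h3]
        field_simp
      nlinarith [h2, h4, h5]

theorem summable_surv (n : ℕ) : Summable (surv n) := by
  obtain ⟨C, hC⟩ := psum_bound n
  exact summable_of_sum_range_le (surv_nonneg n) hC

theorem a_one : a 1 = 0 := by
  unfold a
  simp [surv_one]

/-- The recursion. -/
theorem a_rec (n : ℕ) (hn : 2 ≤ n) :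
    (n : ℝ) * a n = n + ∑ d ∈ n.divisors, (Nat.totient d : ℝ) * a d := by
  have hn0 : (n : ℝ) ≠ 0 := by positivity
  have h1 : a n = 1 + (∑ d ∈ n.divisors, (Nat.totient d : ℝ) * a d) / n := by
    conv_lhs => unfold a
    rw [(summable_surv n).tsum_eq_zero_add, surv_zero n hn]
    congr 1
    have h2 : ∀ t, surv n (t + 1) = (∑ d ∈ n.divisors, (Nat.totient d : ℝ) * surv d t) / n :=
      fun t => surv_succ n t (by omega)
    rw [tsum_congr h2, tsum_div_const]
    congr 1
    rw [Summable.tsum_finsetSum fun d _ => (summable_surv d).mul_left _]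
    refine Finset.sum_congr rfl fun d _ => ?_
    rw [tsum_mul_left, a]
  rw [h1]
  field_simp

theorem aq_le_one {n : ℕ} (hn : n ≤ 1) : aq n = 0 := by
  rw [aq, if_pos hn]

/-- The rational recursion. -/
theorem aq_rec (n : ℕ) (hn : 2 ≤ n) :
    (n : ℚ) * aq n = n + ∑ d ∈ n.divisors, (Nat.totient d : ℚ) * aq d := by
  have hφ : Nat.totient n < n := Nat.totient_lt n (by omega)
  have hφ' : (Nat.totient n : ℚ) < n := by exact_mod_cast hφ
  have h0 : ((n : ℚ) - Nat.totient n) ≠ 0 := by linarith
  rw [← Nat.insert_self_properDivisors (by omega : n ≠ 0),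
    Finset.sum_insert Nat.self_notMem_properDivisors]
  have h1 : aq n = ((n : ℚ) + ∑ d ∈ n.properDivisors, (Nat.totient d : ℚ) * aq d) /
      ((n : ℚ) - (Nat.totient n : ℚ)) := by
    rw [aq, if_neg (by omega), Finset.sum_attach n.properDivisors
      (fun d => (Nat.totient d : ℚ) * aq d)]
  rw [eq_div_iff h0] at h1
  linarith

theorem a_eq_aq : ∀ n : ℕ, 1 ≤ n → a n = (aq n : ℝ) := by
  intro n
  induction n using Nat.strong_induction_on with
  | _ n ih =>
    intro h1
    rcases Nat.lt_or_ge n 2 with hn | hn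
    · have : n = 1 := by omega
      subst this
      rw [a_one, aq_le_one le_rfl]
      simp
    · have hφ : Nat.totient n < n := Nat.totient_lt n (by omega)
      have hφ' : (Nat.totient n : ℝ) < n := by exact_mod_cast hφ
      have e1 := a_rec n hn
      have e2 : (n : ℝ) * (aq n : ℝ) =
          n + ∑ d ∈ n.divisors, (Nat.totient d : ℝ) * (aq d : ℝ) := by
        have := aq_rec n hn
        exact_mod_cast this
      rw [← Nat.insert_self_properDivisors (by omega : n ≠ 0),
        Finset.sum_insert Nat.self_notMem_properDivisors] at e1 e2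
      have e3 : ∑ d ∈ n.properDivisors, (Nat.totient d : ℝ) * a d =
          ∑ d ∈ n.properDivisors, (Nat.totient d : ℝ) * (aq d : ℝ) := by
        refine Finset.sum_congr rfl fun d hd => ?_
        have hd' := Nat.mem_properDivisors.1 hd
        rw [ih d hd'.2 (Nat.pos_of_dvd_of_pos hd'.1 (by omega))]
      rw [e3] at e1
      have : ((n : ℝ) - Nat.totient n) * (a n - aq n) = 0 := by linarith
      rcases mul_eq_zero.1 this with h | h
      · linarith
      · linarith

end H19AB
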