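import Pool.Agent.H19AB.Rec

/-!
# The closed formula for squarefree moduli
-/

namespace H19AB

open Finset
open scoped BigOperators ArithmeticFunction.Moebius

/-- The summand. -/
def g (d : ℕ) : ℚ :=
  if d = 1 then 0 else -(ArithmeticFunction.moebius d : ℚ) * d / ((d : ℚ) - Nat.totient d)

private theorem g_mul (d : ℕ) (hd : 0 < d) :
    g d * ((d : ℚ) - Nat.totient d) =
      d * ((if d = 1 then 1 else 0) - (ArithmeticFunction.moebius d : ℚ)) := by
  unfold g
  by_cases h : d = 1
  · subst h
    simp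
  · rw [if_neg h, if_neg h]
    have hφ : Nat.totient d < d := Nat.totient_lt d (by omega)
    have hφ' : (Nat.totient d : ℚ) < d := by exact_mod_cast hφ
    have h0 : ((d : ℚ) - Nat.totient d) ≠ 0 := by linarith
    field_simp
    ring

private theorem sum_mu (R : ℕ) (hR : 2 ≤ R) :
    ∑ d ∈ R.divisors, (ArithmeticFunction.moebius d : ℚ) = 0 := by
  have h := ArithmeticFunction.coe_mul_zeta_apply (f := ArithmeticFunction.moebius) (x := R)
  rw [ArithmeticFunction.moebius_mul_coe_zeta, ArithmeticFunction.one_apply_ne (by omega)] at h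
  exact_mod_cast h.symm

private theorem sum_tot (R e : ℕ) (hR : Squarefree R) (he : e ∣ R) :
    ∑ d ∈ R.divisors.filter (fun d => e ∣ d), (Nat.totient d : ℚ) =
      (Nat.totient e : ℚ) * (R / e : ℕ) := by
  have hR0 : R ≠ 0 := hR.ne_zero
  have he0 : 0 < e := Nat.pos_of_dvd_of_pos he (Nat.pos_of_ne_zero hR0)
  obtain ⟨f, rfl⟩ := he
  have hf0 : 0 < f := by
    rcases Nat.eq_zero_or_pos f with h | h
    · simp [h] at hR0
    · exact h
  have hc : Nat.Coprime e f := (Nat.squarefree_mul_iff.1 hR).1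
  rw [Nat.mul_div_cancel_left _ he0]
  have h1 : (e * f).divisors.filter (fun d => e ∣ d) = f.divisors.image (fun x => e * x) := by
    ext d
    simp only [Finset.mem_filter, Nat.mem_divisors, Finset.mem_image]
    constructor
    · rintro ⟨⟨h2, h3⟩, x, rfl⟩
      exact ⟨x, ⟨Nat.dvd_of_mul_dvd_mul_left he0 h2, hf0.ne'⟩, rfl⟩
    · rintro ⟨x, ⟨h2, h3⟩, rfl⟩
      exact ⟨⟨Nat.mul_dvd_mul_left e h2, hR0⟩, dvd_mul_right e x⟩
  rw [h1, Finset.sum_image (fun x _ y _ h => Nat.eq_of_mul_eq_mul_left he0 h)]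
  have h2 : ∀ x ∈ f.divisors, (Nat.totient (e * x) : ℚ) = Nat.totient e * Nat.totient x := by
    intro x hx
    have : Nat.Coprime e x := hc.coprime_dvd_right (Nat.dvd_of_mem_divisors hx)
    rw [Nat.totient_mul this]
    push_cast
    rfl
  rw [Finset.sum_congr rfl h2, ← Finset.mul_sum]
  congr 1
  have := Nat.sum_totient f
  exact_mod_cast this

private theorem F_rec (R : ℕ) (hR : Squarefree R) (h2 : 2 ≤ R) :
    (R : ℚ) * ∑ e ∈ R.divisors, g e =
      R + ∑ d ∈ R.divisors, (Nat.totient d : ℚ) * ∑ e ∈ d.divisors, g e := by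
  have hR0 : R ≠ 0 := hR.ne_zero
  have h1 : ∑ d ∈ R.divisors, (Nat.totient d : ℚ) * ∑ e ∈ d.divisors, g e =
      ∑ e ∈ R.divisors, g e * ((Nat.totient e : ℚ) * (R / e : ℕ)) := by
    have h3 : ∀ d ∈ R.divisors, (Nat.totient d : ℚ) * ∑ e ∈ d.divisors, g e =
        ∑ e ∈ R.divisors, if e ∣ d then (Nat.totient d : ℚ) * g e else 0 := by
      intro d hd
      rw [← Finset.sum_filter, Finset.mul_sum]
      have hd' := Nat.dvd_of_mem_divisors hd
      have : d.divisors = R.divisors.filter (fun e => e ∣ d) := by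
        ext e
        simp only [Nat.mem_divisors, Finset.mem_filter]
        constructor
        · rintro ⟨h4, h5⟩
          exact ⟨⟨h4.trans hd', hR0⟩, h4⟩
        · rintro ⟨_, h5⟩
          exact ⟨h5, (Nat.pos_of_dvd_of_pos hd' (Nat.pos_of_ne_zero hR0)).ne'⟩
      rw [this]
    rw [Finset.sum_congr rfl h3, Finset.sum_comm]
    refine Finset.sum_congr rfl fun e he => ?_
    rw [← sum_tot R e hR (Nat.dvd_of_mem_divisors he), ← Finset.sum_filter, Finset.mul_sum]
    refine Finset.sum_congr rfl fun d _ => ?_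
    ring
  have h4 : ∀ e ∈ R.divisors, (R : ℚ) * g e - g e * ((Nat.totient e : ℚ) * (R / e : ℕ)) =
      R * ((if e = 1 then 1 else 0) - (ArithmeticFunction.moebius e : ℚ)) := by
    intro e he
    have he' := Nat.dvd_of_mem_divisors he
    have he0 : 0 < e := Nat.pos_of_dvd_of_pos he' (Nat.pos_of_ne_zero hR0)
    have h5 := g_mul e he0
    have h6 : (R : ℚ) = e * (R / e : ℕ) := by
      exact_mod_cast (Nat.mul_div_cancel' he').symm
    have h7 : (e : ℚ) ≠ 0 := by positivity
    calc (R : ℚ) * g e - g e * ((Nat.totient e : ℚ) * (R / e : ℕ)) =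
        (g e * ((e : ℚ) - Nat.totient e)) * (R / e : ℕ) := by rw [h6]; ring
      _ = (e * (R / e : ℕ)) * ((if e = 1 then 1 else 0) - (ArithmeticFunction.moebius e : ℚ)) := by
          rw [h5]; ring
      _ = _ := by rw [← h6]
  rw [h1]
  have h8 : ∑ e ∈ R.divisors, ((R : ℚ) * g e - g e * ((Nat.totient e : ℚ) * (R / e : ℕ))) = R := by
    rw [Finset.sum_congr rfl h4, ← Finset.mul_sum, Finset.sum_sub_distrib, sum_mu R h2]
    rw [Finset.sum_ite_eq' R.divisors 1 (fun _ => (1 : ℚ)),
      if_pos (Nat.one_mem_divisors.2 hR0)]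
    ring
  rw [Finset.sum_sub_distrib, ← Finset.mul_sum] at h8
  linarith

/-- The closed formula for squarefree `R`. -/
theorem aq_sqf : ∀ R : ℕ, Squarefree R → aq R = ∑ e ∈ R.divisors, g e := by
  intro R
  induction R using Nat.strong_induction_on with
  | _ R ih =>
    intro hR
    rcases Nat.lt_or_ge R 2 with h | h
    · have hR0 : R ≠ 0 := hR.ne_zero
      have : R = 1 := by omega
      subst this
      rw [aq_le_one le_rfl]
      simp [g]
    · have hR0 : R ≠ 0 := by omega
      have hφ : Nat.totient R < R := Nat.totient_lt R (by omega)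
      have hφ' : (Nat.totient R : ℚ) < R := by exact_mod_cast hφ
      have e1 := aq_rec R h
      have e2 := F_rec R hR h
      rw [← Nat.insert_self_properDivisors hR0,
        Finset.sum_insert Nat.self_notMem_properDivisors] at e1
      rw [← Nat.insert_self_properDivisors hR0,
        Finset.sum_insert (f := fun d => (Nat.totient d : ℚ) * ∑ e ∈ d.divisors, g e)
          Nat.self_notMem_properDivisors, Nat.insert_self_properDivisors hR0] at e2
      have e3 : ∑ d ∈ R.properDivisors, (Nat.totient d : ℚ) * aq d =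
          ∑ d ∈ R.properDivisors, (Nat.totient d : ℚ) * ∑ e ∈ d.divisors, g e := by
        refine Finset.sum_congr rfl fun d hd => ?_
        have hd' := Nat.mem_properDivisors.1 hd
        rw [ih d hd'.2 (hR.squarefree_of_dvd hd'.1)]
      rw [e3] at e1
      have : ((R : ℚ) - Nat.totient R) * (aq R - ∑ e ∈ R.divisors, g e) = 0 := by linarith
      rcases mul_eq_zero.1 this with h | h
      · linarith
      · linarith

end H19AB
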